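import Mathlib

set_option autoImplicit false

/-!
List cochains on a type `Z` with values in a commutative ring `K`: a cochain is a function
`List Z → K`; the coboundary is the (augmented) simplicial coboundary of ordered tuples.
-/

namespace Pool.Agent.MPbd

section Cochain

variable {Z : Type*} {Y : Type*} {K : Type*} [CommRing K]

/-- The coboundary of the list cochain `f`, evaluated at the list `w` (recursive form). -/
def dRaw : List Z → (List Z → K) → K
  | [], _ => 0
  | x :: w, f => f w - dRaw w (fun u => f (x :: u))

theorem dRaw_add (w : List Z) (f g : List Z → K) :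
    dRaw w (f + g) = dRaw w f + dRaw w g := by
  induction w generalizing f g with
  | nil => simp [dRaw]
  | cons x w ih =>
    have h2 : (fun u => (f + g) (x :: u)) = (fun u => f (x :: u)) + (fun u => g (x :: u)) := rfl
    simp only [dRaw]
    rw [h2, ih, Pi.add_apply]; ring

theorem dRaw_smul (w : List Z) (c : K) (f : List Z → K) :
    dRaw w (c • f) = c • dRaw w f := by
  induction w generalizing f with
  | nil => simp [dRaw]
  | cons x w ih =>
    have h2 : (fun u => (c • f) (x :: u)) = c • (fun u => f (x :: u)) := rfl
    simp only [dRaw]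
    rw [h2, ih, Pi.smul_apply, smul_sub]

/-- The coboundary as a linear map. -/
def d : (List Z → K) →ₗ[K] (List Z → K) where
  toFun f w := dRaw w f
  map_add' f g := by funext w; exact dRaw_add w f g
  map_smul' c f := by funext w; exact dRaw_smul w c f

@[simp] theorem d_nil (f : List Z → K) : d f [] = 0 := rfl

theorem d_cons (f : List Z → K) (x : Z) (w : List Z) :
    d f (x :: w) = f w - d (fun u => f (x :: u)) w := rfl

theorem d_d (f : List Z → K) (w : List Z) : d (d f) w = 0 := by
  induction w generalizing f with
  | nil => rfl
  | cons x w ih =>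
    rw [d_cons]
    have h2 : (fun u => d f (x :: u)) = f - d (fun u => f (x :: u)) := by
      funext u; rw [d_cons]; rfl
    rw [h2, map_sub, Pi.sub_apply, ih]; ring

/-- The coboundary at `w` only depends on the faces of `w`. -/
theorem d_congr {f g : List Z → K} {w : List Z}
    (H : ∀ k, k < w.length → f (w.eraseIdx k) = g (w.eraseIdx k)) : d f w = d g w := by
  induction w generalizing f g with
  | nil => rfl
  | cons x w ih =>
    rw [d_cons, d_cons]
    have h0 := H 0 (by simp)
    simp only [List.eraseIdx_zero, List.tail_cons] at h0
    rw [h0]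
    congr 1
    apply ih
    intro k hk
    have := H (k + 1) (by simpa using hk)
    simpa using this

theorem length_eraseIdx_add_one {w : List Z} {k : ℕ} (hk : k < w.length) :
    (w.eraseIdx k).length + 1 = w.length := by
  rw [List.length_eraseIdx_of_lt hk]
  omega

/-- The coboundary vanishes at `w` if the cochain vanishes on faces. -/
theorem d_eq_zero_of_faces {f : List Z → K} {w : List Z}
    (H : ∀ u, u.length + 1 = w.length → (∀ y ∈ u, y ∈ w) → f u = 0) : d f w = 0 := by
  have : d f w = d (0 : List Z → K) w := by
    apply d_congr
    intro k hk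
    rw [H _ (length_eraseIdx_add_one hk) (fun y hy => List.mem_of_mem_eraseIdx hy)]
    rfl
  rw [this, map_zero]; rfl

theorem d_congr' {f g : List Z → K} {w : List Z}
    (H : ∀ u, u.length + 1 = w.length → (∀ y ∈ u, y ∈ w) → f u = g u) : d f w = d g w := by
  apply d_congr
  intro k hk
  exact H _ (length_eraseIdx_add_one hk) (fun y hy => List.mem_of_mem_eraseIdx hy)

/-- Pull back of cochains along a map. -/
def pull (φ : Z → Y) : (List Y → K) →ₗ[K] (List Z → K) where
  toFun f w := f (w.map φ)
  map_add' _ _ := rfl
  map_smul' _ _ := rfl

theorem pull_apply (φ : Z → Y) (f : List Y → K) (w : List Z) :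
    pull φ f w = f (w.map φ) := rfl

theorem d_map (φ : Z → Y) (f : List Y → K) (w : List Z) :
    d f (w.map φ) = d (pull φ f) w := by
  induction w generalizing f with
  | nil => rfl
  | cons x w ih =>
    rw [List.map_cons, d_cons, d_cons, ih]; rfl

theorem d_pull (φ : Z → Y) (f : List Y → K) : d (pull φ f) = pull φ (d f) := by
  funext w
  rw [pull_apply, d_map]

/-- The prism operator for two maps `a b : Z → Y`. -/
def prRaw (a b : Z → Y) : List Z → (List Y → K) → K
  | [], _ => 0
  | x :: w, f => f (a x :: b x :: w.map b) - prRaw a b w (fun u => f (a x :: u))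

theorem prRaw_add (a b : Z → Y) (w : List Z) (f g : List Y → K) :
    prRaw a b w (f + g) = prRaw a b w f + prRaw a b w g := by
  induction w generalizing f g with
  | nil => simp [prRaw]
  | cons x w ih =>
    have h2 : (fun u => (f + g) (a x :: u)) = (fun u => f (a x :: u)) + (fun u => g (a x :: u)) :=
      rfl
    simp only [prRaw]
    rw [h2, ih, Pi.add_apply]; ring

theorem prRaw_smul (a b : Z → Y) (w : List Z) (c : K) (f : List Y → K) :
    prRaw a b w (c • f) = c • prRaw a b w f := by
  induction w generalizing f with
  | nil => simp [prRaw]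
  | cons x w ih =>
    have h2 : (fun u => (c • f) (a x :: u)) = c • (fun u => f (a x :: u)) := rfl
    simp only [prRaw]
    rw [h2, ih, Pi.smul_apply, smul_sub]

/-- The prism operator as a linear map. -/
def prism (a b : Z → Y) : (List Y → K) →ₗ[K] (List Z → K) where
  toFun f w := prRaw a b w f
  map_add' f g := by funext w; exact prRaw_add a b w f g
  map_smul' c f := by funext w; exact prRaw_smul a b w c f

@[simp] theorem prism_nil (a b : Z → Y) (f : List Y → K) : prism a b f [] = 0 := rfl

theorem prism_cons (a b : Z → Y) (f : List Y → K) (x : Z) (w : List Z) :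
    prism a b f (x :: w) =
      f (a x :: b x :: w.map b) - prism a b (fun u => f (a x :: u)) w := rfl

/-- The prism identity. -/
theorem prism_identity (a b : Z → Y) (f : List Y → K) (w : List Z) :
    prism a b (d f) w + d (prism a b f) w = f (w.map b) - f (w.map a) := by
  induction w generalizing f with
  | nil => simp
  | cons x w ih =>
    rw [prism_cons, d_cons (prism a b f)]
    have h1 : (fun u => d f (a x :: u)) = f - d (fun u => f (a x :: u)) := by
      funext u; rw [d_cons]; rfl
    have h2 : (fun u => prism a b f (x :: u)) =
        pull b (fun v => f (a x :: b x :: v)) - prism a b (fun u => f (a x :: u)) := by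
      funext u; rw [prism_cons]; rfl
    rw [h1, h2, map_sub, map_sub, Pi.sub_apply, Pi.sub_apply, ← d_map, d_cons, d_cons]
    have h3 := ih (fun u => f (a x :: u))
    simp only [List.map_cons]
    linear_combination h3

/-- Locality of the prism operator. -/
theorem prism_eq_zero {a b : Z → Y} {f : List Y → K} {w : List Z}
    (H : ∀ u, u.length = w.length + 1 → (∀ y ∈ u, ∃ x ∈ w, y = a x ∨ y = b x) → f u = 0) :
    prism a b f w = 0 := by
  induction w generalizing f with
  | nil => rfl
  | cons x w ih =>
    rw [prism_cons, H, ih, sub_zero]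
    · intro u hu hy
      apply H
      · simp [hu]
      · intro y hy'
        rcases List.mem_cons.1 hy' with rfl | h
        · exact ⟨x, by simp, Or.inl rfl⟩
        · obtain ⟨z, hz, hz'⟩ := hy y h
          exact ⟨z, by simp [hz], hz'⟩
    · simp
    · intro y hy
      simp only [List.mem_cons, List.mem_map] at hy
      rcases hy with rfl | rfl | ⟨z, hz, rfl⟩
      · exact ⟨x, by simp, Or.inl rfl⟩
      · exact ⟨x, by simp, Or.inr rfl⟩
      · exact ⟨z, by simp [hz], Or.inr rfl⟩

/-- Naturality of the prism operator. -/
theorem prism_pull {Z' Y' : Type*} (a b : Z → Y) (a' b' : Z' → Y') (φ : Z → Z') (ψ : Y → Y')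
    (ha : ∀ z, ψ (a z) = a' (φ z)) (hb : ∀ z, ψ (b z) = b' (φ z)) (f : List Y' → K) :
    prism a b (pull ψ f) = pull φ (prism a' b' f) := by
  funext w
  induction w generalizing f with
  | nil => rfl
  | cons x w ih =>
    have h1 : (fun u => pull ψ f (a x :: u)) = pull ψ (fun u => f (a' (φ x) :: u)) := by
      funext u; simp [pull_apply, ha]
    have h2 : pull ψ f (a x :: b x :: List.map b w) =
        f (a' (φ x) :: b' (φ x) :: List.map b' (List.map φ w)) := by
      have h4 : ψ ∘ b = b' ∘ φ := by funext z; simp [hb]
      simp [pull_apply, ha, hb, h4]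
    have h3 : pull φ (prism a' b' f) (x :: w) =
        prism a' b' f (φ x :: List.map φ w) := rfl
    rw [h3, prism_cons, prism_cons, h1, ih, h2]; rfl

end Cochain

end Pool.Agent.MPbd
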