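import Mathlib
import Pool.Agent.Lib.MP_bd1dbb_gt.Cochain

set_option autoImplicit false

/-!
Vanishing of list cohomology in large degree for clique complexes with a rank function.
-/

namespace Pool.Agent.MPbd

variable {Z : Type*} {K : Type*} [CommRing K] {Q : Type*} [DecidableEq Q]

/-- Lists all of whose pairs of entries are related by `E`. -/
def Cl (E : Z → Z → Prop) (w : List Z) : Prop := ∀ x ∈ w, ∀ y ∈ w, E x y

theorem Cl.of_subset {E : Z → Z → Prop} {w u : List Z} (h : Cl E w) (hu : ∀ y ∈ u, y ∈ w) :
    Cl E u := fun x hx y hy => h x (hu x hx) y (hu y hy)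

theorem Cl.cons_mem {E : Z → Z → Prop} {w : List Z} (h : Cl E w) {a : Z} (ha : a ∈ w) :
    Cl E (a :: w) := h.of_subset (by
      intro y hy
      rcases List.mem_cons.1 hy with rfl | h
      · exact ha
      · exact h)

theorem Cl.mono {E E' : Z → Z → Prop} (hE : ∀ x y, E x y → E' x y) {w : List Z} (h : Cl E w) :
    Cl E' w := fun x hx y hy => hE _ _ (h x hx y hy)

/-- The cone operator on the element of rank `q`. -/
def Hop (κ : Z → Q) (q : Q) : (List Z → K) →ₗ[K] (List Z → K) where
  toFun f w := match w.find? (fun x => decide (κ x = q)) with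
    | some a => f (a :: w)
    | none => 0
  map_add' f g := by
    funext w
    simp only [Pi.add_apply]
    cases w.find? (fun x => decide (κ x = q)) <;> simp
  map_smul' c f := by
    funext w
    simp only [Pi.smul_apply, RingHom.id_apply]
    cases w.find? (fun x => decide (κ x = q)) <;> simp

theorem Hop_some (κ : Z → Q) (q : Q) (f : List Z → K) {w : List Z} {a : Z}
    (h : w.find? (fun x => decide (κ x = q)) = some a) : Hop κ q f w = f (a :: w) := by
  change (match w.find? (fun x => decide (κ x = q)) with
    | some a => f (a :: w)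
    | none => 0) = _
  rw [h]

theorem Hop_none (κ : Z → Q) (q : Q) (f : List Z → K) {w : List Z}
    (h : w.find? (fun x => decide (κ x = q)) = none) : Hop κ q f w = 0 := by
  change (match w.find? (fun x => decide (κ x = q)) with
    | some a => f (a :: w)
    | none => 0) = _
  rw [h]

theorem Hop_eq_zero {κ : Z → Q} {q : Q} {f : List Z → K} {w : List Z}
    (H : ∀ a ∈ w, f (a :: w) = 0) : Hop κ q f w = 0 := by
  cases h : w.find? (fun x => decide (κ x = q)) with
  | none => exact Hop_none κ q f h
  | some a => rw [Hop_some κ q f h]; exact H a (List.mem_of_find?_eq_some h)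

theorem Hop_pull (κ : Z → Q) (q : Q) (φ : Z → Z) (hφ : ∀ z, κ (φ z) = κ z) (f : List Z → K) :
    Hop κ q (pull φ f) = pull φ (Hop κ q f) := by
  funext w
  rw [pull_apply]
  have h1 : (w.map φ).find? (fun x => decide (κ x = q)) =
      (w.find? (fun x => decide (κ x = q))).map φ := by
    rw [List.find?_map]
    congr 1
    congr 1
    funext x
    simp [hφ]
  cases h : w.find? (fun x => decide (κ x = q)) with
  | none =>
    rw [Hop_none κ q _ h, Hop_none]
    rw [h1, h]; rfl
  | some a =>
    rw [Hop_some κ q _ h, Hop_some κ q _ (a := φ a)]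
    · rfl
    · rw [h1, h]; rfl

/-- One step of the reduction. -/
theorem Hop_step {E : Z → Z → Prop} {κ : Z → Q} (hE : ∀ a b, E a b → κ a = κ b → a = b)
    {n : ℕ} {f : List Z → K} (hf : ∀ w, Cl E w → w.length = n + 1 → d f w = 0) (q : Q)
    (w : List Z) (hw : Cl E w) (hn : w.length = n) (q' : Q)
    (hq' : 2 ≤ w.countP (fun x => decide (κ x = q')))
    (hvan : q' ≠ q → ∀ u, Cl E u → u.length = n →
      2 ≤ u.countP (fun x => decide (κ x = q')) → f u = 0) :
    (f - d (Hop κ q f)) w = 0 := by
  rw [Pi.sub_apply, sub_eq_zero]
  cases h : w.find? (fun x => decide (κ x = q)) with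
  | none =>
    have hno : ∀ x ∈ w, ¬ κ x = q := by
      intro x hx
      have := List.find?_eq_none.1 h x hx
      simpa using this
    have h1 : d (Hop κ q f) w = 0 := by
      apply d_eq_zero_of_faces
      intro u _ hu2
      apply Hop_none
      rw [List.find?_eq_none]
      intro x hx
      simpa using hno x (hu2 x hx)
    rw [h1]
    have hne : q' ≠ q := by
      rintro rfl
      have h3 : 0 < w.countP (fun x => decide (κ x = q')) := by omega
      obtain ⟨x, hx, hx'⟩ := List.countP_pos_iff.1 h3
      exact hno x hx (by simpa using hx')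
    exact hvan hne w hw hn hq'
  | some a =>
    have ha : a ∈ w := List.mem_of_find?_eq_some h
    have haq : κ a = q := by simpa using List.find?_some h
    have key : d (Hop κ q f) w = d (fun u => f (a :: u)) w := by
      apply d_congr
      intro k hk
      have hsub : ∀ y ∈ w.eraseIdx k, y ∈ w := fun y hy => List.mem_of_mem_eraseIdx hy
      cases h' : (w.eraseIdx k).find? (fun x => decide (κ x = q)) with
      | some a' =>
        rw [Hop_some κ q f h']
        have ha' : a' ∈ w := hsub _ (List.mem_of_find?_eq_some h')
        have haq' : κ a' = q := by simpa using List.find?_some h'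
        rw [hE a' a (hw a' ha' a ha) (haq'.trans haq.symm)]
      | none =>
        rw [Hop_none κ q f h']
        have hno : ∀ x ∈ w.eraseIdx k, ¬ κ x = q := by
          intro x hx
          have := List.find?_eq_none.1 h' x hx
          simpa using this
        -- the removed element is of rank `q`
        have hperm : w.Perm (w[k] :: w.eraseIdx k) := (List.getElem_cons_eraseIdx_perm hk).symm
        have hk' : κ w[k] = q := by
          have : a ∈ w[k] :: w.eraseIdx k := hperm.mem_iff.1 ha
          rcases List.mem_cons.1 this with h5 | h5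
          · rw [← h5]; exact haq
          · exact absurd haq (hno a h5)
        have hcount : w.countP (fun x => decide (κ x = q')) =
            (w[k] :: w.eraseIdx k).countP (fun x => decide (κ x = q')) := hperm.countP_eq _
        rw [List.countP_cons] at hcount
        have hne : q' ≠ q := by
          rintro rfl
          have h3 : 0 < (w.eraseIdx k).countP (fun x => decide (κ x = q')) := by
            split_ifs at hcount <;> omega
          obtain ⟨x, hx, hx'⟩ := List.countP_pos_iff.1 h3
          exact hno x hx (by simpa using hx')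
        have h4 : ¬ (κ w[k] = q') := by rw [hk']; exact fun h => hne h.symm
        simp only [h4, decide_false, Bool.false_eq_true, if_false, add_zero] at hcount
        symm
        apply hvan hne
        · apply hw.of_subset
          intro y hy
          rcases List.mem_cons.1 hy with rfl | h
          · exact ha
          · exact hsub _ h
        · rw [List.length_cons, length_eraseIdx_add_one hk, hn]
        · rw [List.countP_cons]; omega
    have h6 := hf (a :: w) (hw.cons_mem ha) (by simp [hn])
    rw [d_cons] at h6
    rw [key]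
    exact sub_eq_zero.1 h6

/-- Reduction over a list of ranks, inside submodules `A` (degree `n`) and `B` (degree `n-1`). -/
theorem Hop_iter {E : Z → Z → Prop} {κ : Z → Q} (hE : ∀ a b, E a b → κ a = κ b → a = b)
    {n : ℕ} (A B : Submodule K (List Z → K)) (hAB : ∀ q f, f ∈ A → Hop κ q f ∈ B)
    (hBA : ∀ g, g ∈ B → d g ∈ A) {f : List Z → K} (hfA : f ∈ A)
    (hf : ∀ w, Cl E w → w.length = n + 1 → d f w = 0) (L : List Q) :
    ∃ g ∈ B, ∀ w, Cl E w → w.length = n →
      ∀ q ∈ L, 2 ≤ w.countP (fun x => decide (κ x = q)) → (f - d g) w = 0 := by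
  induction L with
  | nil => exact ⟨0, B.zero_mem, by intro w _ _ q hq; simp at hq⟩
  | cons q L ih =>
    obtain ⟨g, hg, hgL⟩ := ih
    have hA' : f - d g ∈ A := A.sub_mem hfA (hBA g hg)
    have hf' : ∀ w, Cl E w → w.length = n + 1 → d (f - d g) w = 0 := by
      intro w hw hn
      rw [map_sub, Pi.sub_apply, hf w hw hn, d_d, sub_zero]
    refine ⟨g + Hop κ q (f - d g), B.add_mem hg (hAB q _ hA'), ?_⟩
    intro w hw hn q' hq' hcount
    have : f - d (g + Hop κ q (f - d g)) = (f - d g) - d (Hop κ q (f - d g)) := by
      rw [map_add]; abel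
    rw [this]
    apply Hop_step hE hf' q w hw hn q' hcount
    intro hne u hu hun hcu
    rcases List.mem_cons.1 hq' with h | h
    · exact absurd h hne
    · exact hgL u hu hun q' h hcu

/-- Pigeonhole: a list with more entries than available ranks has a repeated rank. -/
theorem exists_rank_dup {κ : Z → Q} (L : List Q) (w : List Z) (hL : ∀ x ∈ w, κ x ∈ L)
    (hlen : L.length < w.length) : ∃ q ∈ L, 2 ≤ w.countP (fun x => decide (κ x = q)) := by
  by_contra hcon
  push_neg at hcon
  have hnd : (w.map κ).Nodup := by
    rw [List.nodup_iff_count_le_one]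
    intro q
    by_cases hq : q ∈ L
    · have := hcon q hq
      have h2 : List.count q (w.map κ) = w.countP (fun x => decide (κ x = q)) := by
        rw [List.count, List.countP_map]
        congr 1
      omega
    · have h3 : q ∉ w.map κ := by
        intro h
        obtain ⟨x, hx, rfl⟩ := List.mem_map.1 h
        exact hq (hL x hx)
      rw [List.count_eq_zero_of_not_mem h3]; omega
  have hsub : w.map κ ⊆ L := by
    intro q hq
    obtain ⟨x, hx, rfl⟩ := List.mem_map.1 hq
    exact hL x hx
  have := (hnd.subperm hsub).length_le
  rw [List.length_map] at this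
  omega

/-- Vanishing in large degree. -/
theorem rank_vanish {E : Z → Z → Prop} {κ : Z → Q} (hE : ∀ a b, E a b → κ a = κ b → a = b)
    (L : List Q) (hL : ∀ a, E a a → κ a ∈ L)
    {n : ℕ} (hn : L.length < n) (A B : Submodule K (List Z → K))
    (hAB : ∀ q f, f ∈ A → Hop κ q f ∈ B)
    (hBA : ∀ g, g ∈ B → d g ∈ A) {f : List Z → K} (hfA : f ∈ A)
    (hf : ∀ w, Cl E w → w.length = n + 1 → d f w = 0) :
    ∃ g ∈ B, ∀ w, Cl E w → w.length = n → f w = d g w := by
  obtain ⟨g, hg, hgL⟩ := Hop_iter hE A B hAB hBA hfA hf L
  refine ⟨g, hg, ?_⟩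
  intro w hw hwn
  obtain ⟨q, hq, hc⟩ := exists_rank_dup (κ := κ) L w (fun x hx => hL x (hw x hx x hx)) (by omega)
  exact sub_eq_zero.1 (hgL w hw hwn q hq hc)

end Pool.Agent.MPbd
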