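import Mathlib
import Pool.Agent.Lib.MP_bd1dbb_gt.Rank

set_option autoImplicit false
set_option linter.unusedSectionVars false

/-!
Smith special cochains for a map `h` of prime period `p`.
-/

namespace Pool.Agent.MPbd

open Function Finset

section orbits

variable {p : ℕ} [Fact p.Prime] {A : Type*}

theorem iterate_mod_period {g : A → A} (hg : ∀ a, g^[p] a = a) (j : ℕ) (a : A) :
    g^[j % p] a = g^[j] a := by
  have : IsPeriodicPt g p a := hg a
  exact this.iterate_mod_apply j

theorem orbit_injOn {g : A → A} (hg : ∀ a, g^[p] a = a) {a : A} (ha : g a ≠ a) :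
    ∀ i < p, ∀ j < p, g^[i] a = g^[j] a → i = j := by
  have hmin : minimalPeriod g a = p :=
    minimalPeriod_eq_prime (hg a) ha
  have := iterate_injOn_Iio_minimalPeriod (f := g) (x := a)
  intro i hi j hj hij
  apply this
  · simpa [hmin] using hi
  · simpa [hmin] using hj
  · exact hij

/-- The orbit relation. -/
def orbRel (g : A → A) (a b : A) : Prop := ∃ j, g^[j] a = b

theorem orbRel_equiv {g : A → A} (hg : ∀ a, g^[p] a = a) : Equivalence (orbRel g) := by
  refine ⟨fun a => ⟨0, rfl⟩, ?_, ?_⟩
  · rintro a b ⟨j, rfl⟩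
    refine ⟨j * (p - 1), ?_⟩
    rw [← iterate_add_apply]
    have hp : 1 ≤ p := (Fact.out : p.Prime).one_lt.le
    have : j * (p - 1) + j = j * p := by
      obtain ⟨q, rfl⟩ := Nat.exists_eq_add_of_le' hp
      simp only [Nat.add_sub_cancel]
      ring
    rw [this, ← iterate_mod_period hg]
    simp
  · rintro a b c ⟨i, rfl⟩ ⟨j, rfl⟩
    exact ⟨j + i, iterate_add_apply g j i a⟩

/-- Orbit representative. -/
noncomputable def orbRep (g : A → A) (hg : ∀ a, g^[p] a = a) (a : A) : A :=
  (Quotient.mk (⟨orbRel g, orbRel_equiv hg⟩ : Setoid A) a).out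

theorem orbRep_eq_of_rel {g : A → A} (hg : ∀ a, g^[p] a = a) {a b : A} (h : orbRel g a b) :
    orbRep g hg a = orbRep g hg b := by
  unfold orbRep
  have : Quotient.mk (⟨orbRel g, orbRel_equiv hg⟩ : Setoid A) a =
      Quotient.mk (⟨orbRel g, orbRel_equiv hg⟩ : Setoid A) b := Quotient.sound h
  rw [this]

theorem orbRep_rel {g : A → A} (hg : ∀ a, g^[p] a = a) (a : A) :
    orbRel g (orbRep g hg a) a := by
  unfold orbRep
  exact Quotient.mk_out (s := (⟨orbRel g, orbRel_equiv hg⟩ : Setoid A)) a

theorem orbRep_rel' {g : A → A} (hg : ∀ a, g^[p] a = a) (a : A) :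
    orbRel g a (orbRep g hg a) := (orbRel_equiv hg).symm (orbRep_rel hg a)

theorem orbRel_of_orbRep_eq {g : A → A} (hg : ∀ a, g^[p] a = a) {a b : A}
    (h : orbRep g hg a = orbRep g hg b) : orbRel g a b := by
  have h1 := orbRep_rel' hg a
  rw [h] at h1
  exact (orbRel_equiv hg).trans h1 (orbRep_rel hg b)

theorem exists_orbit_char {g : A → A} (hg : ∀ a, g^[p] a = a) :
    ∃ χ : A → ZMod p, ∀ a, g a ≠ a → ∑ j ∈ range p, χ (g^[j] a) = 1 := by
  classical
  refine ⟨fun a => if a = orbRep g hg a then 1 else 0, ?_⟩
  intro a ha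
  obtain ⟨j, hj⟩ := orbRep_rel' hg a
  have hj' : g^[j % p] a = orbRep g hg a := by rw [iterate_mod_period hg, hj]
  have hlt : j % p < p := Nat.mod_lt _ (Fact.out : p.Prime).pos
  beta_reduce
  rw [Finset.sum_eq_single (j % p)]
  · rw [if_pos]
    rw [← orbRep_eq_of_rel hg ⟨j % p, rfl⟩, hj']
  · intro i hi hne
    rw [if_neg]
    intro h
    rw [← orbRep_eq_of_rel hg ⟨i, rfl⟩, ← hj'] at h
    exact hne (orbit_injOn hg ha i (Finset.mem_range.1 hi) _ hlt h)
  · intro h
    exact absurd (Finset.mem_range.2 hlt) h

end orbits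

section special

variable {p : ℕ} [Fact p.Prime] {Z : Type*} (h : Z → Z)

theorem pull_pow_apply {K : Type*} [CommRing K] (j : ℕ) (f : List Z → K) (w : List Z) :
    ((pull h : Module.End K (List Z → K)) ^ j) f w = f (w.map h^[j]) := by
  induction j generalizing f w with
  | zero => simp
  | succ j ih =>
    rw [pow_succ, Module.End.mul_apply, ih, pull_apply, List.map_map]
    congr 2
    rw [Function.iterate_succ']

/-- The operators `σ` (for `true`) and `τ` (for `false`). -/
noncomputable def rho (p : ℕ) (h : Z → Z) (b : Bool) : Module.End (ZMod p) (List Z → ZMod p) :=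
  if b then ∑ j ∈ range p, (pull h) ^ j else 1 - pull h

theorem rho_true_apply (f : List Z → ZMod p) (w : List Z) :
    rho p h true f w = ∑ j ∈ range p, f (w.map h^[j]) := by
  unfold rho
  rw [if_pos rfl, LinearMap.sum_apply, Finset.sum_apply]
  apply Finset.sum_congr rfl
  intro j _
  rw [pull_pow_apply]

theorem rho_false_apply (f : List Z → ZMod p) (w : List Z) :
    rho p h false f w = f w - f (w.map h) := by
  unfold rho
  rw [if_neg (by simp)]
  rfl

theorem map_iterate_eq_iterate_map (j : ℕ) (w : List Z) :
    w.map h^[j] = (List.map h)^[j] w := by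
  induction j generalizing w with
  | zero => simp
  | succ j ih =>
    rw [Function.iterate_succ_apply, ← ih, List.map_map]
    rfl

theorem map_period (hp : ∀ z, h^[p] z = z) (w : List Z) : (List.map h)^[p] w = w := by
  rw [← map_iterate_eq_iterate_map]
  conv_rhs => rw [← List.map_id w]
  apply List.map_congr_left
  intro a _
  exact hp a

theorem pull_pow_period (hp : ∀ z, h^[p] z = z) {K : Type*} [CommRing K] :
    (pull h : Module.End K (List Z → K)) ^ p = 1 := by
  apply LinearMap.ext
  intro f
  funext w
  rw [pull_pow_apply, map_iterate_eq_iterate_map, map_period h hp]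
  rfl

theorem rho_mul_rho (hp : ∀ z, h^[p] z = z) (b : Bool) (f : List Z → ZMod p) :
    rho p h b (rho p h (!b) f) = 0 := by
  have h1 : (1 - (pull h : Module.End (ZMod p) (List Z → ZMod p))) *
      ∑ j ∈ range p, (pull h : Module.End (ZMod p) (List Z → ZMod p)) ^ j = 0 := by
    rw [mul_neg_geom_sum, pull_pow_period h hp, sub_self]
  have h2 : (∑ j ∈ range p, (pull h : Module.End (ZMod p) (List Z → ZMod p)) ^ j) *
      (1 - (pull h : Module.End (ZMod p) (List Z → ZMod p))) = 0 := by
    rw [geom_sum_mul_neg, pull_pow_period h hp, sub_self]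
  cases b with
  | true =>
    have := LinearMap.congr_fun h2 f
    rw [Module.End.mul_apply] at this
    simpa [rho] using this
  | false =>
    have := LinearMap.congr_fun h1 f
    rw [Module.End.mul_apply] at this
    simpa [rho] using this

theorem rho_comm (T : (List Z → ZMod p) →ₗ[ZMod p] (List Z → ZMod p))
    (hT : ∀ f, T (pull h f) = pull h (T f)) (b : Bool) (f : List Z → ZMod p) :
    T (rho p h b f) = rho p h b (T f) := by
  have hc : Commute (T : Module.End (ZMod p) (List Z → ZMod p)) (pull h) := by
    apply LinearMap.ext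
    intro f
    exact hT f
  have hc' : Commute (T : Module.End (ZMod p) (List Z → ZMod p)) (rho p h b) := by
    unfold rho
    split_ifs
    · apply Commute.sum_right
      intro j _
      exact hc.pow_right j
    · exact (Commute.one_right T).sub_right hc
  exact LinearMap.congr_fun hc'.eq f

theorem rho_d (b : Bool) (f : List Z → ZMod p) : d (rho p h b f) = rho p h b (d f) :=
  rho_comm h d (fun f => d_pull h f) b f

theorem map_iterate_of_fixed {w : List Z} (hw : ∀ x ∈ w, h x = x) (j : ℕ) :
    w.map h^[j] = w := by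
  conv_rhs => rw [← List.map_id w]
  apply List.map_congr_left
  intro a ha
  exact Function.iterate_fixed (hw a ha) j

theorem map_of_fixed {w : List Z} (hw : ∀ x ∈ w, h x = x) :
    w.map h = w := map_iterate_of_fixed h hw 1

theorem rho_fixed (b : Bool) (f : List Z → ZMod p) {w : List Z} (hw : ∀ x ∈ w, h x = x) :
    rho p h b f w = 0 := by
  cases b with
  | false => rw [rho_false_apply, map_of_fixed h hw, sub_self]
  | true =>
    rw [rho_true_apply]
    rw [Finset.sum_congr rfl (fun j _ => by rw [map_iterate_of_fixed h hw j])]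
    simp

/-- A relation invariant under `h`. -/
def Inv (E : Z → Z → Prop) : Prop := ∀ x y, E x y → E (h x) (h y)

variable {h}

theorem Inv.iterate {E : Z → Z → Prop} (hE : Inv h E) (j : ℕ) {x y : Z} (hxy : E x y) :
    E (h^[j] x) (h^[j] y) := by
  induction j with
  | zero => exact hxy
  | succ j ih => rw [Function.iterate_succ_apply', Function.iterate_succ_apply']; exact hE _ _ ih

theorem Inv.cl {E : Z → Z → Prop} (hE : Inv h E) (j : ℕ) {w : List Z} (hw : Cl E w) :
    Cl E (w.map h^[j]) := by
  intro x hx y hy
  obtain ⟨x', hx', rfl⟩ := List.mem_map.1 hx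
  obtain ⟨y', hy', rfl⟩ := List.mem_map.1 hy
  exact hE.iterate j (hw x' hx' y' hy')

theorem rho_congr {E : Z → Z → Prop} (hE : Inv h E) (b : Bool) {f g : List Z → ZMod p} {n : ℕ}
    (H : ∀ w, Cl E w → w.length = n → f w = g w) {w : List Z} (hw : Cl E w)
    (hn : w.length = n) : rho p h b f w = rho p h b g w := by
  cases b with
  | false =>
    rw [rho_false_apply, rho_false_apply, H w hw hn, H (w.map h) (hE.cl 1 hw) (by simpa using hn)]
  | true =>
    rw [rho_true_apply, rho_true_apply]
    apply Finset.sum_congr rfl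
    intro j _
    exact H _ (hE.cl j hw) (by simpa using hn)

theorem rho_eq_zero {E : Z → Z → Prop} (hE : Inv h E) (b : Bool) {f : List Z → ZMod p} {n : ℕ}
    (H : ∀ w, Cl E w → w.length = n → f w = 0) {w : List Z} (hw : Cl E w)
    (hn : w.length = n) : rho p h b f w = 0 := by
  have := rho_congr (p := p) hE b (f := f) (g := 0) (n := n) H hw hn
  rw [this, map_zero]; rfl

variable (h)

/-- The special cochains: `f` vanishes on fixed lists and is killed by the complementary operator,
on `E`-lists of length `n - m`. -/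
def CC (p : ℕ) (h : Z → Z) (b : Bool) (E : Z → Z → Prop) (n m : ℕ) :
    Submodule (ZMod p) (List Z → ZMod p) where
  carrier := {f | ∀ w, Cl E w → w.length + m = n →
    rho p h (!b) f w = 0 ∧ ((∀ x ∈ w, h x = x) → f w = 0)}
  zero_mem' := by
    intro w _ _
    rw [map_zero]
    exact ⟨rfl, fun _ => rfl⟩
  add_mem' := by
    intro f g hf hg w hw hn
    obtain ⟨a1, a2⟩ := hf w hw hn
    obtain ⟨b1, b2⟩ := hg w hw hn
    refine ⟨?_, ?_⟩
    · rw [map_add, Pi.add_apply, a1, b1, add_zero]
    · intro h1
      rw [Pi.add_apply, a2 h1, b2 h1, add_zero]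
  smul_mem' := by
    intro c f hf w hw hn
    obtain ⟨a1, a2⟩ := hf w hw hn
    refine ⟨?_, ?_⟩
    · rw [map_smul, Pi.smul_apply, a1, smul_zero]
    · intro h1
      rw [Pi.smul_apply, a2 h1, smul_zero]

theorem mem_CC {b : Bool} {E : Z → Z → Prop} {n m : ℕ} {f : List Z → ZMod p} :
    f ∈ CC p h b E n m ↔ ∀ w, Cl E w → w.length + m = n →
      rho p h (!b) f w = 0 ∧ ((∀ x ∈ w, h x = x) → f w = 0) := Iff.rfl

theorem d_mem_CC {b : Bool} {E : Z → Z → Prop} {n : ℕ} (f : List Z → ZMod p)
    (hf : f ∈ CC p h b E n 1) : d f ∈ CC p h b E n 0 := by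
  intro w hw hn
  refine ⟨?_, ?_⟩
  · rw [← rho_d]
    apply d_eq_zero_of_faces
    intro u hu hu'
    exact (hf u (hw.of_subset hu') (by omega)).1
  · intro hfix
    apply d_eq_zero_of_faces
    intro u hu hu'
    exact (hf u (hw.of_subset hu') (by omega)).2 (fun x hx => hfix x (hu' x hx))

/-- Exactness of the special complexes. -/
theorem exact_CC (hp : ∀ z, h^[p] z = z) {E : Z → Z → Prop} (hE : Inv h E) (b : Bool) (n : ℕ)
    (f : List Z → ZMod p) (hf : f ∈ CC p h b E n 0) :
    ∃ W : List Z → ZMod p, ∀ w, Cl E w → w.length = n →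
      rho p h b W w = f w ∧ ((∀ x ∈ w, h x = x) → W w = 0) := by
  obtain ⟨χ, hχ⟩ := exists_orbit_char (p := p) (g := (List.map h : List Z → List Z))
    (map_period h hp)
  have hχ' : ∀ w : List Z, (¬ ∀ x ∈ w, h x = x) → ∑ j ∈ range p, χ (w.map h^[j]) = 1 := by
    intro w hw
    have h1 : w.map h ≠ w := by
      intro heq
      apply hw
      intro x hx
      have h2 : ∀ (l : List Z), l.map h = l → ∀ x ∈ l, h x = x := by
        intro l
        induction l with
        | nil => simp
        | cons a l ih =>
          intro hl x hx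
          simp only [List.map_cons, List.cons.injEq] at hl
          rcases List.mem_cons.1 hx with rfl | hx
          · exact hl.1
          · exact ih hl.2 x hx
      exact h2 w heq x hx
    rw [← hχ w h1]
    apply Finset.sum_congr rfl
    intro j _
    rw [map_iterate_eq_iterate_map]
  cases b with
  | true =>
    refine ⟨fun w => χ w * f w, ?_⟩
    intro w hw hn
    have hinv : ∀ j, f (w.map h^[j]) = f w := by
      intro j
      induction j with
      | zero => simp
      | succ j ih =>
        have h1 := (hf (w.map h^[j]) (hE.cl j hw) (by simpa using hn)).1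
        rw [Bool.not_true, rho_false_apply, List.map_map, ← Function.iterate_succ' h j] at h1
        rw [← ih]
        exact (sub_eq_zero.1 h1).symm
    refine ⟨?_, ?_⟩
    · rw [rho_true_apply]
      have h1 : ∀ j ∈ range p, χ (w.map h^[j]) * f (w.map h^[j]) = χ (w.map h^[j]) * f w :=
        fun j _ => by rw [hinv j]
      rw [Finset.sum_congr rfl h1, ← Finset.sum_mul]
      by_cases hfix : ∀ x ∈ w, h x = x
      · rw [(hf w hw (by simpa using hn)).2 hfix, mul_zero]
      · rw [hχ' w hfix, one_mul]
    · intro hfix
      show χ w * f w = 0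
      rw [(hf w hw (by simpa using hn)).2 hfix, mul_zero]
  | false =>
    refine ⟨fun w => - ∑ j ∈ range p, ∑ i ∈ range j, χ (w.map h^[i]) * f (w.map h^[i + (p - j)]),
      ?_⟩
    intro w hw hn
    refine ⟨?_, ?_⟩
    · rw [rho_false_apply]
      have h1 : ∀ j ∈ range p, (∑ i ∈ range j, χ (w.map h^[i]) * f (w.map h^[i + (p - j)])) -
          (∑ i ∈ range j, χ ((w.map h).map h^[i]) * f ((w.map h).map h^[i + (p - j)])) =
          χ w * f (w.map h^[p - j]) - χ (w.map h^[j]) * f w := by
        intro j hj
        have h2 : ∀ i, χ ((w.map h).map h^[i]) * f ((w.map h).map h^[i + (p - j)]) =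
            χ (w.map h^[i + 1]) * f (w.map h^[i + 1 + (p - j)]) := by
          intro i
          rw [List.map_map, List.map_map, ← Function.iterate_succ, ← Function.iterate_succ]
          congr 3
          have : i + (p - j) + 1 = i + 1 + (p - j) := by omega
          rw [← this]
        rw [Finset.sum_congr rfl (fun i _ => h2 i), ← Finset.sum_sub_distrib]
        rw [Finset.sum_range_sub' (fun i => χ (w.map h^[i]) * f (w.map h^[i + (p - j)])) j]
        have hjp : j + (p - j) = p := by
          have := Finset.mem_range.1 hj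
          omega
        have h3 : w.map h^[p] = w := by
          rw [map_iterate_eq_iterate_map]; exact map_period h hp w
        simp only [hjp, h3, zero_add, Function.iterate_zero, List.map_id]
      have h4 : -(∑ j ∈ range p, ∑ i ∈ range j, χ (w.map h^[i]) * f (w.map h^[i + (p - j)])) -
          -(∑ j ∈ range p, ∑ i ∈ range j, χ ((w.map h).map h^[i]) *
            f ((w.map h).map h^[i + (p - j)])) =
          -(χ w * ∑ j ∈ range p, f (w.map h^[p - j])) +
            (∑ j ∈ range p, χ (w.map h^[j])) * f w := by
        rw [Finset.mul_sum, Finset.sum_mul, neg_sub_neg, ← neg_sub, ← Finset.sum_sub_distrib,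
          Finset.sum_congr rfl h1, Finset.sum_sub_distrib]
        ring
      rw [h4]
      have h5 : ∑ j ∈ range p, f (w.map h^[p - j]) = 0 := by
        have h6 := (hf w hw (by simpa using hn)).1
        rw [Bool.not_false, rho_true_apply] at h6
        rw [← h6]
        have h7 : ∑ j ∈ range (p + 1), f (w.map h^[j]) = ∑ j ∈ range (p + 1), f (w.map h^[p - j]) := by
          rw [← Finset.sum_range_reflect]
          apply Finset.sum_congr rfl
          intro j hj
          congr 3
        rw [Finset.sum_range_succ, Finset.sum_range_succ] at h7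
        have h3 : w.map h^[p] = w := by
          rw [map_iterate_eq_iterate_map]; exact map_period h hp w
        rw [h3, Nat.sub_self, Function.iterate_zero, List.map_id] at h7
        exact (add_right_cancel h7).symm
      rw [h5, mul_zero, neg_zero, zero_add]
      by_cases hfix : ∀ x ∈ w, h x = x
      · rw [(hf w hw (by simpa using hn)).2 hfix, mul_zero]
      · rw [hχ' w hfix, one_mul]
    · intro hfix
      show -(∑ j ∈ range p, ∑ i ∈ range j, χ (w.map h^[i]) * f (w.map h^[i + (p - j)])) = 0
      rw [neg_eq_zero]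
      apply Finset.sum_eq_zero
      intro j _
      apply Finset.sum_eq_zero
      intro i _
      rw [map_iterate_of_fixed h hfix, map_iterate_of_fixed h hfix,
        (hf w hw (by simpa using hn)).2 hfix, mul_zero]

end special

end Pool.Agent.MPbd
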