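import Mathlib
import Pool.Agent.Lib.MP_bd1dbb_gt.Special

set_option autoImplicit false
set_option linter.unusedSectionVars false

/-!
Equivariant finite approximations for a periodic map of a compact metric space.
-/

namespace Pool.Agent.MPbd

open Function Finset

variable {p : ℕ} [Fact p.Prime] {Z : Type*} [MetricSpace Z] {h : Z → Z}

/-- Closeness along the whole orbit. -/
def Dc (p : ℕ) (h : Z → Z) (ε : ℝ) (x y : Z) : Prop :=
  ∀ j, j < p → dist (h^[j] x) (h^[j] y) < ε

theorem Dc.dist_lt {ε : ℝ} {x y : Z} (H : Dc p h ε x y) : dist x y < ε :=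
  H 0 (Fact.out : p.Prime).pos

theorem Dc.symm {ε : ℝ} {x y : Z} (H : Dc p h ε x y) : Dc p h ε y x := by
  intro j hj
  rw [dist_comm]; exact H j hj

theorem Dc.mono {ε ε' : ℝ} (hε : ε ≤ ε') {x y : Z} (H : Dc p h ε x y) : Dc p h ε' x y :=
  fun j hj => lt_of_lt_of_le (H j hj) hε

theorem Dc.trans {ε ε' : ℝ} {x y z : Z} (H : Dc p h ε x y) (H' : Dc p h ε' y z) :
    Dc p h (ε + ε') x z :=
  fun j hj => lt_of_le_of_lt (dist_triangle _ (h^[j] y) _) (add_lt_add (H j hj) (H' j hj))

theorem Dc_self {ε : ℝ} (hε : 0 < ε) (x : Z) : Dc p h ε x x := by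
  intro j _; rw [dist_self]; exact hε

theorem Dc_inv (hp : ∀ z, h^[p] z = z) (ε : ℝ) : Inv h (Dc p h ε) := by
  intro x y H j hj
  rw [← iterate_succ_apply, ← iterate_succ_apply]
  rcases Nat.lt_or_ge (j + 1) p with h1 | h1
  · exact H (j + 1) h1
  · have : j + 1 = p := by omega
    rw [Nat.succ_eq_add_one, this, hp, hp]
    exact H.dist_lt

theorem exists_Dc [CompactSpace Z] (hc : Continuous h) {ε : ℝ} (hε : 0 < ε) :
    ∃ δ > 0, ∀ x y, dist x y < δ → Dc p h ε x y := by
  have key : ∀ m : ℕ, ∃ δ > 0, ∀ x y, dist x y < δ → ∀ j, j < m →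
      dist (h^[j] x) (h^[j] y) < ε := by
    intro m
    induction m with
    | zero => exact ⟨1, one_pos, fun x y _ j hj => absurd hj (Nat.not_lt_zero j)⟩
    | succ m ih =>
      obtain ⟨δ, hδ, H⟩ := ih
      have huc : UniformContinuous (h^[m]) :=
        CompactSpace.uniformContinuous_of_continuous (hc.iterate m)
      obtain ⟨δ', hδ', H'⟩ := Metric.uniformContinuous_iff.1 huc ε hε
      refine ⟨min δ δ', lt_min hδ hδ', ?_⟩
      intro x y hxy j hj
      rcases Nat.lt_succ_iff_lt_or_eq.1 hj with h1 | h1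
      · exact H x y (lt_of_lt_of_le hxy (min_le_left _ _)) j h1
      · rw [h1]; exact H' (lt_of_lt_of_le hxy (min_le_right _ _))
  exact key p

/-- Almost fixed points are close to fixed points. -/
theorem near_fixed [CompactSpace Z] (hc : Continuous h) {r : ℝ} (hr : 0 < r) :
    ∃ c > 0, ∀ t, dist t (h t) < c → ∃ v, h v = v ∧ dist t v < r := by
  set S : Set Z := {t | ∀ v, h v = v → r ≤ dist t v} with hS
  have hcl : IsClosed S := by
    have : S = ⋂ v, ⋂ (_ : h v = v), {t | r ≤ dist t v} := by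
      ext t; simp [hS]
    rw [this]
    apply isClosed_iInter; intro v
    apply isClosed_iInter; intro _
    exact isClosed_le continuous_const (continuous_id.dist continuous_const)
  have hcomp : IsCompact S := hcl.isCompact
  rcases S.eq_empty_or_nonempty with hemp | hne
  · refine ⟨1, one_pos, ?_⟩
    intro t _
    by_contra hcon
    push Not at hcon
    have : t ∈ S := fun v hv => hcon v hv
    rw [hemp] at this
    exact this
  · obtain ⟨t₀, ht₀, hmin⟩ := hcomp.exists_isMinOn hne
      (f := fun t => dist t (h t)) (continuous_id.dist hc).continuousOn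
    have hpos : 0 < dist t₀ (h t₀) := by
      rcases (dist_nonneg (x := t₀) (y := h t₀)).lt_or_eq with h1 | h1
      · exact h1
      · exfalso
        have h2 : t₀ = h t₀ := dist_eq_zero.1 h1.symm
        have h3 := ht₀ t₀ h2.symm
        rw [dist_self] at h3
        linarith
    refine ⟨dist t₀ (h t₀), hpos, ?_⟩
    intro t ht
    by_contra hcon
    push Not at hcon
    have h1 : t ∈ S := fun v hv => hcon v hv
    have h2 := hmin h1
    simp only [Set.mem_ofPred_eq] at h2
    linarith

/-- If some nontrivial iterate moves `t` little (along the orbit), then `h` moves `t` little. -/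
theorem dist_of_Dc_iterate (hp : ∀ z, h^[p] z = z) {c : ℝ} (hc : 0 < c) {t : Z} {j : ℕ}
    (hj0 : 0 < j) (hjp : j < p) (H : Dc p h c t (h^[j] t)) : dist t (h t) < p * c := by
  have hprime : p.Prime := Fact.out
  have hcop : Nat.Coprime j p :=
    (Nat.coprime_comm.1 ((Nat.Prime.coprime_iff_not_dvd hprime).2
      (fun hd => absurd (Nat.le_of_dvd hj0 hd) (by omega))))
  obtain ⟨m, hm⟩ := Nat.exists_mul_mod_eq_one_of_coprime hcop hprime.one_lt
  set k := m % p with hk
  have hkp : k < p := Nat.mod_lt _ hprime.pos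
  have hmk : j * k % p = 1 := by
    rw [hk, Nat.mul_mod, Nat.mod_mod, ← Nat.mul_mod]; exact hm.2
  have hk0 : 0 < k := by
    rcases Nat.eq_zero_or_pos k with h0 | h0
    · rw [h0, mul_zero, Nat.zero_mod] at hmk; omega
    · exact h0
  have h1 : dist t (h t) = dist (h^[j * 0] t) (h^[j * k] t) := by
    rw [mul_zero, iterate_zero, id, ← iterate_mod_period hp (j * k), hmk, iterate_one]
  rw [h1]
  have h2 := dist_le_range_sum_dist (fun i => h^[j * i] t) k
  have h3 : ∀ i ∈ range k, dist (h^[j * i] t) (h^[j * (i + 1)] t) ≤ c := by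
    intro i _
    have h4 := ((Dc_inv hp c).iterate (j * i) H).dist_lt
    rw [← iterate_add_apply] at h4
    have : j * i + j = j * (i + 1) := by ring
    rw [this] at h4
    exact h4.le
  calc dist (h^[j * 0] t) (h^[j * k] t) ≤ ∑ i ∈ range k, dist (h^[j * i] t) (h^[j * (i + 1)] t) := h2
    _ ≤ ∑ i ∈ range k, c := Finset.sum_le_sum h3
    _ = k * c := by simp
    _ < p * c := by
      apply mul_lt_mul_of_pos_right _ hc
      exact_mod_cast hkp

theorem exists_s0 [CompactSpace Z] (hp : ∀ z, h^[p] z = z) (hc : Continuous h) {r : ℝ}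
    (hr : 0 < r) : ∃ c > 0, ∃ s₀ : Z → Z, (Set.range s₀).Finite ∧ ∀ z, Dc p h r z (s₀ z) ∧
      (h (s₀ z) = s₀ z ∨ (Dc p h (c / 3) z (s₀ z) ∧
        ∀ j, 0 < j → j < p → ¬ Dc p h c (s₀ z) (h^[j] (s₀ z)))) := by
  have hprime : p.Prime := Fact.out
  have hp0 : (0 : ℝ) < p := by exact_mod_cast hprime.pos
  obtain ⟨r', hr', Hr'⟩ := exists_Dc (p := p) hc (half_pos hr)
  obtain ⟨c₀, hc₀, Hc₀⟩ := near_fixed hc hr'
  set c := c₀ / p with hcdef
  have hcpos : 0 < c := div_pos hc₀ hp0
  set r₁ := min (c / 3) (r / 2) with hr₁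
  have hr₁pos : 0 < r₁ := lt_min (by positivity) (by positivity)
  obtain ⟨δ, hδ, Hδ⟩ := exists_Dc (p := p) hc hr₁pos
  obtain ⟨N, -, hNfin, hN⟩ := finite_cover_balls_of_compact (isCompact_univ (X := Z)) hδ
  have hnet : ∀ z : Z, ∃ t ∈ N, Dc p h r₁ z t := by
    intro z
    have := hN (Set.mem_univ z)
    simp only [Set.mem_iUnion, Metric.mem_ball, exists_prop] at this
    obtain ⟨t, ht, hzt⟩ := this
    exact ⟨t, ht, Hδ z t hzt⟩
  choose ν hνN hν using hnet
  have hv : ∀ t : Z, ∃ v : Z, (¬ ∀ j, 0 < j → j < p → ¬ Dc p h c t (h^[j] t)) →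
      (h v = v ∧ Dc p h (r / 2) t v) := by
    intro t
    by_cases hsp : ∀ j, 0 < j → j < p → ¬ Dc p h c t (h^[j] t)
    · exact ⟨t, fun hcon => absurd hsp hcon⟩
    · have hsp' := hsp
      push Not at hsp'
      obtain ⟨j, hj0, hjp, hD⟩ := hsp'
      have h1 := dist_of_Dc_iterate hp hcpos hj0 hjp hD
      have h2 : (p : ℝ) * c = c₀ := by
        rw [hcdef]; field_simp
      rw [h2] at h1
      obtain ⟨v, hv1, hv2⟩ := Hc₀ t h1
      exact ⟨v, fun _ => ⟨hv1, Hr' t v hv2⟩⟩
  choose v hv using hv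
  classical
  refine ⟨c, hcpos, fun z => if ∀ j, 0 < j → j < p → ¬ Dc p h c (ν z) (h^[j] (ν z))
    then ν z else v (ν z), ?_, ?_⟩
  · apply (hNfin.union (hNfin.image v)).subset
    rintro _ ⟨z, rfl⟩
    dsimp only
    split_ifs
    · exact Or.inl (hνN z)
    · exact Or.inr ⟨ν z, hνN z, rfl⟩
  · intro z
    beta_reduce
    by_cases hsp : ∀ j, 0 < j → j < p → ¬ Dc p h c (ν z) (h^[j] (ν z))
    · rw [if_pos hsp]
      refine ⟨(hν z).mono ((min_le_right _ _).trans (by linarith)), Or.inr ⟨?_, hsp⟩⟩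
      exact (hν z).mono (min_le_left _ _)
    · rw [if_neg hsp]
      obtain ⟨h1, h2⟩ := hv (ν z) hsp
      refine ⟨?_, Or.inl h1⟩
      have := (hν z).trans h2
      apply this.mono
      have : r₁ ≤ r / 2 := min_le_right _ _
      linarith

/-- Equivariant finite approximation with ranks. -/
theorem exists_approx [CompactSpace Z] (hp : ∀ z, h^[p] z = z) (hc : Continuous h) {r : ℝ}
    (hr : 0 < r) : ∃ δ > 0, ∃ s κ : Z → Z, ∃ L : List Z,
      (∀ z, s (h z) = h (s z)) ∧ (∀ z, Dc p h r z (s z)) ∧ (∀ z, κ (h z) = κ z) ∧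
      (∀ z, κ (s z) ∈ L) ∧ (∀ x y, Dc p h δ x y → κ (s x) = κ (s y) → s x = s y) := by
  have hprime : p.Prime := Fact.out
  obtain ⟨c, hc0, s₀, hfin, hs₀⟩ := exists_s0 hp hc hr
  -- representatives
  have hrep : ∀ z, ∃ j, h^[j] (orbRep h hp z) = z := fun z => orbRep_rel hp z
  choose jj hjj using hrep
  have hfix₀ : ∀ z, h z = z → h (s₀ z) = s₀ z := by
    intro z hz
    rcases (hs₀ z).2 with h1 | ⟨h1, h2⟩
    · exact h1
    · exfalso
      apply h2 1 one_pos hprime.one_lt
      rw [iterate_one]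
      have h3 : Dc p h (c / 3) z (h (s₀ z)) := by
        have := Dc_inv hp _ _ _ h1
        rw [hz] at this; exact this
      exact (h1.symm.trans h3).mono (by linarith)
  have hij : ∀ z i j, h^[i] z = h^[j] z → h^[i] (s₀ z) = h^[j] (s₀ z) := by
    intro z i j hz
    by_cases hfz : h z = z
    · rw [iterate_fixed (hfix₀ z hfz), iterate_fixed (hfix₀ z hfz)]
    · rw [← iterate_mod_period hp i z, ← iterate_mod_period hp j z] at hz
      have := orbit_injOn hp hfz _ (Nat.mod_lt _ hprime.pos) _ (Nat.mod_lt _ hprime.pos) hz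
      rw [← iterate_mod_period hp i, ← iterate_mod_period hp j, this]
  have hclose : ∀ z ε, Dc p h ε (orbRep h hp z) (s₀ (orbRep h hp z)) →
      Dc p h ε z (h^[jj z] (s₀ (orbRep h hp z))) := by
    intro z ε H
    have := (Dc_inv hp ε).iterate (jj z) H
    rwa [hjj] at this
  refine ⟨c / 3, by positivity, fun z => h^[jj z] (s₀ (orbRep h hp z)), orbRep h hp,
    (hfin.image (orbRep h hp)).toFinset.toList, ?_, ?_, ?_, ?_, ?_⟩
  · intro z
    have h1 : orbRep h hp (h z) = orbRep h hp z := (orbRep_eq_of_rel hp ⟨1, rfl⟩).symm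
    dsimp only
    rw [h1, ← iterate_succ_apply' h]
    apply hij
    have h2 := hjj (h z)
    rw [h1] at h2
    rw [h2, iterate_succ_apply' h, hjj z]
  · intro z
    exact hclose z r (hs₀ _).1
  · intro z
    exact (orbRep_eq_of_rel hp ⟨1, rfl⟩).symm
  · intro z
    rw [Finset.mem_toList, Set.Finite.mem_toFinset]
    refine ⟨s₀ (orbRep h hp z), ⟨_, rfl⟩, ?_⟩
    exact orbRep_eq_of_rel hp ⟨jj z, rfl⟩
  · intro x y hxy hκ
    dsimp only at hκ ⊢
    set a := h^[jj x] (s₀ (orbRep h hp x)) with ha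
    set b := h^[jj y] (s₀ (orbRep h hp y)) with hb
    obtain ⟨k, hk⟩ := orbRel_of_orbRep_eq hp hκ
    have hk' : h^[k % p] a = b := by rw [iterate_mod_period hp]; exact hk
    by_cases hfa : h a = a
    · rw [← hk, iterate_fixed hfa]
    · -- both are spread
      have hfb : h b ≠ b := by
        intro hb'
        apply hfa
        have h1 : h^[p - k % p] b = a := by
          rw [← hk', ← iterate_add_apply]
          have : p - k % p + k % p = p := Nat.sub_add_cancel (Nat.mod_lt _ hprime.pos).le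
          rw [this, hp]
        rw [← h1, iterate_fixed hb', hb']
      have hnf : ∀ z i, h (h^[i] (s₀ z)) ≠ h^[i] (s₀ z) → (Dc p h (c / 3) z (s₀ z) ∧
        ∀ j, 0 < j → j < p → ¬ Dc p h c (s₀ z) (h^[j] (s₀ z))) := by
        intro z i hne
        rcases (hs₀ z).2 with h1 | h1
        · exfalso
          apply hne
          rw [iterate_fixed h1, h1]
        · exact h1
      obtain ⟨hx1, hx2⟩ := hnf _ _ hfa
      obtain ⟨hy1, hy2⟩ := hnf _ _ hfb
      have hxa := hclose x _ hx1
      have hyb := hclose y _ hy1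
      rw [← ha] at hxa
      rw [← hb] at hyb
      have hab : Dc p h c a b := by
        have := (hxa.symm.trans hxy).trans hyb
        exact this.mono (by linarith)
      rcases Nat.eq_zero_or_pos (k % p) with h0 | h0
      · rw [h0, iterate_zero, id] at hk'
        exact hk'
      · exfalso
        apply hx2 (k % p) h0 (Nat.mod_lt _ hprime.pos)
        -- pull back by an iterate
        have h5 : h^[p - jj x % p] a = s₀ (orbRep h hp x) := by
          rw [ha, ← iterate_mod_period hp (jj x), ← iterate_add_apply]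
          have : p - jj x % p + jj x % p = p :=
            Nat.sub_add_cancel (Nat.mod_lt _ hprime.pos).le
          rw [this, hp]
        have h6 := (Dc_inv hp c).iterate (p - jj x % p) hab
        have h7 : h^[p - jj x % p] b = h^[k % p] (h^[p - jj x % p] a) := by
          rw [← hk', ← iterate_add_apply h (p - jj x % p) (k % p) a,
            ← iterate_add_apply h (k % p) (p - jj x % p) a, Nat.add_comm]
        rw [h7, h5] at h6
        exact h6

end Pool.Agent.MPbd
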