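import Mathlib

set_option autoImplicit false
set_option linter.unusedSectionVars false

/-!
A Burau type transport between orderings of finitely many labelled points.
-/

namespace Pool.Agent.MPbd

open Function Finset

section

variable {R : Type*} [CommRing R] {N : ℕ}

/-- The Alexander quandle operation. -/
def Aq (t a z : R) : R := t * z + (1 - t) * a

/-- The ordered product of quandle operations over the labels at positions `< j` satisfying `b`,
leftmost outermost. -/
def Wj (t : R) (r : Equiv.Perm (Fin N)) (b : Fin N → Prop) [DecidablePred b] (c : Fin N → R) :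
    ℕ → R → R
  | 0, z => z
  | j + 1, z =>
    if hj : j < N then
      (if b (r.symm ⟨j, hj⟩) then Wj t r b c j (Aq t (c (r.symm ⟨j, hj⟩)) z)
        else Wj t r b c j z)
    else Wj t r b c j z

/-- Change from vertical cuts (ordering `r`) to horizontal cuts (ordering `I`). -/
def Psi (t : R) (r I : Equiv.Perm (Fin N)) (c : Fin N → R) (l : Fin N) : R :=
  Wj t r (fun u => I l < I u) c (r l) (c l)

theorem Wj_zero (t : R) (r : Equiv.Perm (Fin N)) (b : Fin N → Prop) [DecidablePred b]
    (c : Fin N → R) (z : R) : Wj t r b c 0 z = z := rfl

theorem Wj_succ (t : R) (r : Equiv.Perm (Fin N)) (b : Fin N → Prop) [DecidablePred b]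
    (c : Fin N → R) (u : Fin N) (z : R) : Wj t r b c (r u + 1) z =
      if b u then Wj t r b c (r u) (Aq t (c u) z) else Wj t r b c (r u) z := by
  rw [Wj, dif_pos (r u).2]
  have : r.symm ⟨(r u : ℕ), (r u).2⟩ = u := by simp
  rw [this]

theorem Wj_congr (t : R) (r : Equiv.Perm (Fin N)) (b b' : Fin N → Prop) [DecidablePred b]
    [DecidablePred b'] (c : Fin N → R) (j : ℕ) (H : ∀ u, (r u : ℕ) < j → (b u ↔ b' u)) (z : R) :
    Wj t r b c j z = Wj t r b' c j z := by
  induction j generalizing z with
  | zero => rfl
  | succ j ih =>
    have ih' := ih (fun u hu => H u (by omega))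
    by_cases hj : j < N
    · set u := r.symm ⟨j, hj⟩ with hu
      have hru : (r u : ℕ) = j := by rw [hu]; simp
      have hb := H u (by omega)
      rw [← hru, Wj_succ, Wj_succ, hru]
      by_cases hbu : b u
      · rw [if_pos hbu, if_pos (hb.1 hbu), ih']
      · rw [if_neg hbu, if_neg (fun h => hbu (hb.2 h)), ih']
    · rw [Wj, Wj, dif_neg hj, dif_neg hj, ih']

theorem Wj_add (t : R) (r : Equiv.Perm (Fin N)) (b : Fin N → Prop) [DecidablePred b]
    (c c' : Fin N → R) (j : ℕ) (z z' : R) :
    Wj t r b (c + c') j (z + z') = Wj t r b c j z + Wj t r b c' j z' := by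
  induction j generalizing z z' with
  | zero => rfl
  | succ j ih =>
    rw [Wj, Wj, Wj]
    split_ifs
    · rw [← ih]
      congr 1
      simp only [Aq, Pi.add_apply]; ring
    · exact ih z z'
    · exact ih z z'

theorem Wj_smul (t : R) (r : Equiv.Perm (Fin N)) (b : Fin N → Prop) [DecidablePred b]
    (a : R) (c : Fin N → R) (j : ℕ) (z : R) :
    Wj t r b (a • c) j (a * z) = a * Wj t r b c j z := by
  induction j generalizing z with
  | zero => rfl
  | succ j ih =>
    rw [Wj, Wj]
    split_ifs
    · rw [← ih]
      congr 1
      simp only [Aq, Pi.smul_apply, smul_eq_mul]; ring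
    · exact ih z
    · exact ih z

/-- `Wj` is affine in its last argument: it commutes with the quandle operation. -/
theorem Wj_Aq (t : R) (r : Equiv.Perm (Fin N)) (b : Fin N → Prop) [DecidablePred b]
    (c : Fin N → R) (j : ℕ) (a z : R) :
    Wj t r b c j (Aq t a z) = Aq t (Wj t r b c j a) (Wj t r b c j z) := by
  induction j generalizing a z with
  | zero => rfl
  | succ j ih =>
    rw [Wj, Wj, Wj]
    split_ifs
    · rw [← ih]
      congr 1
      simp only [Aq]; ring
    · exact ih a z
    · exact ih a z

theorem Wj_one (t : R) (r : Equiv.Perm (Fin N)) (b : Fin N → Prop) [DecidablePred b] (j : ℕ) :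
    Wj t r b (fun _ => (1 : R)) j 1 = 1 := by
  induction j with
  | zero => rfl
  | succ j ih =>
    rw [Wj]
    split_ifs
    · have : Aq t (1 : R) 1 = 1 := by simp [Aq]
      rw [this, ih]
    · exact ih
    · exact ih

theorem Wj_mod (t : R) (r : Equiv.Perm (Fin N)) (b : Fin N → Prop) [DecidablePred b]
    (c : Fin N → R) (j : ℕ) (z : R) : (t - 1) ∣ Wj t r b c j z - z := by
  induction j generalizing z with
  | zero => simp [Wj]
  | succ j ih =>
    rw [Wj]
    split_ifs with h1 h2
    · have h3 := ih (Aq t (c (r.symm ⟨j, h1⟩)) z)
      have h4 : (t - 1) ∣ Aq t (c (r.symm ⟨j, h1⟩)) z - z :=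
        ⟨z - c (r.symm ⟨j, h1⟩), by simp only [Aq]; ring⟩
      have := dvd_add h3 h4
      rwa [sub_add_sub_cancel] at this
    · exact ih z
    · exact ih z

theorem Wj_equiv (t : R) (r : Equiv.Perm (Fin N)) (s : Equiv.Perm (Fin N)) (b b' : Fin N → Prop)
    [DecidablePred b] [DecidablePred b'] (hb : ∀ u, b' u ↔ b (s u)) (c : Fin N → R) (j : ℕ)
    (z : R) : Wj t (s.trans r) b' (fun u => c (s u)) j z = Wj t r b c j z := by
  induction j generalizing z with
  | zero => rfl
  | succ j ih =>
    rw [Wj, Wj]
    by_cases hj : j < N
    · rw [dif_pos hj, dif_pos hj]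
      have h1 : s ((s.trans r).symm ⟨j, hj⟩) = r.symm ⟨j, hj⟩ := by simp
      have h2 : b' ((s.trans r).symm ⟨j, hj⟩) ↔ b (r.symm ⟨j, hj⟩) := by rw [hb, h1]
      rw [h1]
      by_cases h3 : b (r.symm ⟨j, hj⟩)
      · rw [if_pos h3, if_pos (h2.2 h3), ih]
      · rw [if_neg h3, if_neg (fun h => h3 (h2.1 h)), ih]
    · rw [dif_neg hj, dif_neg hj, ih]

/-- The elementary crossing. -/
def Sx (t : R) (k l : Fin N) (c : Fin N → R) : Fin N → R :=
  Function.update c l (Aq t (c k) (c l))

theorem Psi_self (t : R) (r : Equiv.Perm (Fin N)) (c : Fin N → R) : Psi t r r c = c := by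
  funext l
  unfold Psi
  have h : ∀ (j : ℕ) (z : R), Wj t r (fun _ => False) c j z = z := by
    intro j
    induction j with
    | zero => intro z; rfl
    | succ j ih =>
      intro z
      rw [Wj]
      split_ifs with h1 h2
      · exact absurd h2 (by simp)
      · exact ih z
      · exact ih z
  rw [Wj_congr t r _ (fun _ => False) c (r l), h]
  intro u hu
  simp only [iff_false, not_lt]
  exact Fin.le_def.2 (by omega)

/-- Adjacent transposition of positions. -/
def sw (k l : Fin N) (I : Equiv.Perm (Fin N)) : Equiv.Perm (Fin N) := (Equiv.swap k l).trans I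

theorem sw_left (k l : Fin N) (I : Equiv.Perm (Fin N)) : sw k l I k = I l := by simp [sw]

theorem sw_right (k l : Fin N) (I : Equiv.Perm (Fin N)) : sw k l I l = I k := by simp [sw]

theorem sw_other {k l u : Fin N} (I : Equiv.Perm (Fin N)) (h1 : u ≠ k) (h2 : u ≠ l) :
    sw k l I u = I u := by simp [sw, Equiv.swap_apply_of_ne_of_ne h1 h2]

theorem sw_sw (k l : Fin N) (I : Equiv.Perm (Fin N)) : sw l k (sw k l I) = I := by
  ext u
  simp [sw, Equiv.swap_comm l k]

/-- Adjacent swap lemma. -/
theorem Psi_swap (t : R) (r I : Equiv.Perm (Fin N)) (k l : Fin N)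
    (hI : (I l : ℕ) = I k + 1) (hr : r k < r l) (c : Fin N → R) :
    Psi t r (sw k l I) c = Sx t k l (Psi t r I c) := by
  have hkl : k ≠ l := by rintro rfl; exact lt_irrefl _ hr
  have hinj : ∀ u v, (I u : ℕ) = I v → u = v := fun u v h => I.injective (Fin.ext h)
  have hsw : ∀ u, u ≠ k → u ≠ l → (sw k l I u : ℕ) = I u := fun u h1 h2 => by
    rw [sw_other I h1 h2]
  have hswk : (sw k l I k : ℕ) = I l := by rw [sw_left]
  have hswl : (sw k l I l : ℕ) = I k := by rw [sw_right]
  have hr' : (r k : ℕ) < r l := hr
  funext m
  unfold Sx
  by_cases hml : m = l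
  · subst hml
    rw [Function.update_self]
    unfold Psi
    -- positions before `k`
    have hk1 : ∀ z, Wj t r (fun u => sw k m I m < sw k m I u) c (r k) z =
        Wj t r (fun u => I k < I u) c (r k) z := by
      intro z
      apply Wj_congr
      intro u hu
      have h1 : u ≠ k := by rintro rfl; omega
      have h2 : u ≠ m := by rintro rfl; omega
      rw [Fin.lt_def, Fin.lt_def, hsw u h1 h2, hswl]
    have hk2 : ∀ z, Wj t r (fun u => I m < I u) c (r k) z =
        Wj t r (fun u => I k < I u) c (r k) z := by
      intro z
      apply Wj_congr
      intro u hu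
      have h1 : u ≠ k := by rintro rfl; omega
      have h2 : u ≠ m := by rintro rfl; omega
      have h3 : (I u : ℕ) ≠ I m := fun h => h2 (hinj _ _ h)
      rw [Fin.lt_def, Fin.lt_def]
      constructor <;> intro h4 <;> omega
    have main : ∀ (j : ℕ) (z : R), (r k : ℕ) + 1 ≤ j → j ≤ r m →
        Wj t r (fun u => sw k m I m < sw k m I u) c j z =
        Aq t (Wj t r (fun u => I k < I u) c (r k) (c k))
          (Wj t r (fun u => I m < I u) c j z) := by
      intro j
      induction j with
      | zero => intro z h1 _; omega
      | succ j ih =>
        intro z h1 h2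
        rcases Nat.lt_or_ge (r k : ℕ) j with h3 | h3
        · have hjN : j < N := by have := (r m).2; omega
          set u := r.symm ⟨j, hjN⟩ with hu
          have hru : (r u : ℕ) = j := by rw [hu]; simp
          have hum : u ≠ m := by rintro hh; rw [hh] at hru; omega
          have huk : u ≠ k := by rintro hh; rw [hh] at hru; omega
          have hiff : (sw k m I m < sw k m I u) ↔ (I m < I u) := by
            have h5 : (I u : ℕ) ≠ I m := fun h => hum (hinj _ _ h)
            rw [Fin.lt_def, Fin.lt_def, hsw u huk hum, hswl]
            constructor <;> intro h4 <;> omega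
          rw [← hru, Wj_succ, Wj_succ, hru]
          by_cases h6 : I m < I u
          · rw [if_pos h6, if_pos (hiff.2 h6)]
            exact ih _ (by omega) (by omega)
          · rw [if_neg h6, if_neg (fun h => h6 (hiff.1 h))]
            exact ih _ (by omega) (by omega)
        · have hjk : j = (r k : ℕ) := by omega
          rw [hjk, Wj_succ, Wj_succ, if_pos, if_neg, hk1, hk2, Wj_Aq]
          · rw [Fin.lt_def]; omega
          · rw [Fin.lt_def, hswk, hswl]; omega
    exact main (r m) (c m) (by omega) le_rfl
  · rw [Function.update_of_ne hml]
    unfold Psi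
    apply Wj_congr
    intro u hu
    by_cases hmk : m = k
    · subst hmk
      have h1 : u ≠ m := by rintro rfl; omega
      have h2 : u ≠ l := by rintro rfl; omega
      have h3 : (I u : ℕ) ≠ I l := fun h => h2 (hinj _ _ h)
      rw [Fin.lt_def, Fin.lt_def, hsw u h1 h2, hswk]
      constructor <;> intro h4 <;> omega
    · have h0 : (I m : ℕ) ≠ I k := fun h => hmk (hinj _ _ h)
      have h0' : (I m : ℕ) ≠ I l := fun h => hml (hinj _ _ h)
      rw [Fin.lt_def, Fin.lt_def, hsw m hmk hml]
      by_cases h1 : u = k
      · subst h1
        rw [hswk]
        constructor <;> intro h4 <;> omega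
      · by_cases h2 : u = l
        · subst h2
          rw [hswl]
          constructor <;> intro h4 <;> omega
        · rw [hsw u h1 h2]

theorem Sx_injective (t : Rˣ) {k l : Fin N} (hkl : k ≠ l) :
    Function.Injective (Sx (t : R) k l) := by
  intro c c' h
  funext m
  have hm : ∀ m, m ≠ l → c m = c' m := by
    intro m hm
    have := congrFun h m
    simpa [Sx, Function.update_of_ne hm] using this
  by_cases hml : m = l
  · have h1 := congrFun h l
    simp only [Sx, Function.update_self, Aq] at h1
    rw [hm k hkl] at h1
    have h2 : (t : R) * c l = t * c' l := by linear_combination h1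
    rw [hml]
    exact (Units.mul_right_inj t).1 h2
  · exact hm m hml

theorem Sx_surjective (t : Rˣ) {k l : Fin N} (hkl : k ≠ l) :
    Function.Surjective (Sx (t : R) k l) := by
  intro c
  refine ⟨Function.update c l ((t⁻¹ : Rˣ) * (c l - (1 - (t : R)) * c k)), ?_⟩
  funext m
  by_cases hml : m = l
  · subst hml
    simp only [Sx, Function.update_self, Aq, Function.update_of_ne hkl]
    have : (t : R) * (((t⁻¹ : Rˣ) : R) * (c m - (1 - (t : R)) * c k)) =
        c m - (1 - (t : R)) * c k := by
      rw [← mul_assoc, Units.mul_inv, one_mul]
    rw [this]; ring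
  · simp [Sx, Function.update_of_ne hml]

/-- Induction on adjacent transpositions towards `J`. -/
theorem sw_induction (J : Equiv.Perm (Fin N)) (P : Equiv.Perm (Fin N) → Prop) (base : P J)
    (step : ∀ I k l, (I l : ℕ) = I k + 1 → J l < J k → P (sw k l I) → P I) : ∀ I, P I := by
  classical
  have key : ∀ (n : ℕ) (I : Equiv.Perm (Fin N)),
      ((Finset.univ : Finset (Fin N × Fin N)).filter
        (fun q => I q.1 < I q.2 ∧ J q.2 < J q.1)).card = n → P I := by
    intro n
    induction n using Nat.strong_induction_on with
    | _ n ih =>
      intro I hI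
      by_cases hex : ∃ k l, (I l : ℕ) = I k + 1 ∧ J l < J k
      · obtain ⟨k, l, h1, h2⟩ := hex
        apply step I k l h1 h2
        apply ih _ _ _ rfl
        rw [← hI]
        apply Finset.card_lt_card
        have hkl : k ≠ l := by rintro rfl; exact lt_irrefl _ h2
        rw [Finset.ssubset_iff_of_subset]
        · refine ⟨(k, l), ?_, ?_⟩
          · simp only [Finset.mem_filter, Finset.mem_univ, true_and]
            exact ⟨Fin.lt_def.2 (by omega), h2⟩
          · simp only [Finset.mem_filter, Finset.mem_univ, true_and, sw_left, sw_right, not_and]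
            intro h3
            exfalso
            have := Fin.lt_def.1 h3
            omega
        · rintro ⟨a, b⟩ hab
          simp only [Finset.mem_filter, Finset.mem_univ, true_and] at hab ⊢
          obtain ⟨h3, h4⟩ := hab
          refine ⟨?_, h4⟩
          have hinj : ∀ u v, (I u : ℕ) = I v → u = v := fun u v h => I.injective (Fin.ext h)
          rw [Fin.lt_def] at h3 ⊢
          by_cases ak : a = k
          · subst ak
            rw [sw_left] at h3
            by_cases bl : b = l
            · subst bl
              rw [sw_right] at h3
              omega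
            · by_cases ba : b = a
              · subst ba; exact absurd h4 (lt_irrefl _)
              · rw [sw_other I ba bl] at h3
                omega
          · by_cases al : a = l
            · subst al
              rw [sw_right] at h3
              by_cases bk : b = k
              · subst bk
                exact absurd (lt_trans h4 h2) (lt_irrefl _)
              · by_cases ba : b = a
                · subst ba; exact absurd h4 (lt_irrefl _)
                · rw [sw_other I bk ba] at h3
                  have : (I b : ℕ) ≠ I a := fun h => ba (hinj _ _ h)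
                  omega
            · rw [sw_other I ak al] at h3
              have a1 : (I a : ℕ) ≠ I k := fun h => ak (hinj _ _ h)
              have a2 : (I a : ℕ) ≠ I l := fun h => al (hinj _ _ h)
              by_cases bk : b = k
              · subst bk
                rw [sw_left] at h3
                omega
              · by_cases bl : b = l
                · subst bl
                  rw [sw_right] at h3
                  omega
                · rw [sw_other I bk bl] at h3
                  exact h3
      · -- no adjacent inversion: `I = J`
        push Not at hex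
        have hmono : StrictMono (fun i : Fin N => J (I.symm i)) := by
          have h5 : ∀ (m : ℕ) (i j : Fin N), (j : ℕ) = i + m + 1 →
              J (I.symm i) < J (I.symm j) := by
            intro m
            induction m with
            | zero =>
              intro i j hij
              have := hex (I.symm i) (I.symm j) (by simp; omega)
              apply lt_of_le_of_ne this
              intro h
              have := I.symm.injective (J.injective h)
              rw [this] at hij
              omega
            | succ m ihm =>
              intro i j hij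
              have hj' : (i : ℕ) + m + 1 < N := by have := j.2; omega
              have h6 := ihm i ⟨i + m + 1, hj'⟩ rfl
              have h7 := hex (I.symm ⟨i + m + 1, hj'⟩) (I.symm j) (by simp; omega)
              exact lt_of_lt_of_le h6 h7
          intro i j hij
          exact h5 (j - i - 1) i j (by have := Fin.lt_def.1 hij; omega)
        have hIJ : I = J := by
          have h8 : ∀ i : Fin N, J (I.symm i) = i := by
            intro i
            have h9 := (StrictMono.range_inj hmono strictMono_id).1 (by
              rw [Set.range_id]
              exact (I.symm.trans J).surjective.range_eq)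
            exact congrFun h9 i
          apply Equiv.ext
          intro x
          have := h8 (I x)
          simp only [Equiv.symm_apply_apply] at this
          exact this.symm
        rw [hIJ]; exact base
  intro I
  exact key _ I rfl

/-- One step of the factorization of `Psi` in the opposite direction. -/
theorem Psi_swap' (t : R) (r I : Equiv.Perm (Fin N)) (k l : Fin N)
    (hI : (I l : ℕ) = I k + 1) (hr : r l < r k) (c : Fin N → R) :
    Psi t r I c = Sx t l k (Psi t r (sw k l I) c) := by
  have h := Psi_swap t r (sw k l I) l k (by rw [sw_left, sw_right]; exact hI) hr c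
  rw [sw_sw] at h
  exact h

theorem Psi_bijective (t : Rˣ) (r I : Equiv.Perm (Fin N)) :
    Function.Bijective (Psi (t : R) r I) := by
  revert I
  apply sw_induction r
  · have : Psi (t : R) r r = id := by funext c; exact Psi_self _ r c
    rw [this]; exact Function.bijective_id
  · intro I k l hI hr ih
    have : Psi (t : R) r I = Sx (t : R) l k ∘ Psi (t : R) r (sw k l I) := by
      funext c
      exact Psi_swap' _ r I k l hI hr c
    rw [this]
    have hlk : l ≠ k := by rintro rfl; exact lt_irrefl _ hr
    exact Function.Bijective.comp ⟨Sx_injective t hlk, Sx_surjective t hlk⟩ ih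

/-- The invariant linear form. -/
def Lam (t : R) (r : Equiv.Perm (Fin N)) (c : Fin N → R) : R := ∑ l, t ^ (r l : ℕ) * c l

theorem Lam_swap (t : R) (I : Equiv.Perm (Fin N)) (k l : Fin N) (hI : (I l : ℕ) = I k + 1)
    (c : Fin N → R) : Lam t (sw k l I) (Sx t k l c) = Lam t I c := by
  classical
  have hkl : k ≠ l := by rintro rfl; omega
  have hlmem : l ∈ (Finset.univ : Finset (Fin N)) := Finset.mem_univ l
  have hkmem : k ∈ (Finset.univ : Finset (Fin N)).erase l :=
    Finset.mem_erase.2 ⟨hkl, Finset.mem_univ k⟩
  unfold Lam
  rw [← Finset.add_sum_erase _ _ hlmem, ← Finset.add_sum_erase _ _ hlmem,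
    ← Finset.add_sum_erase _ _ hkmem, ← Finset.add_sum_erase _ _ hkmem]
  have h1 : ∑ x ∈ ((Finset.univ : Finset (Fin N)).erase l).erase k,
      t ^ (sw k l I x : ℕ) * Sx t k l c x =
      ∑ x ∈ ((Finset.univ : Finset (Fin N)).erase l).erase k, t ^ (I x : ℕ) * c x := by
    apply Finset.sum_congr rfl
    intro x hx
    rw [Finset.mem_erase, Finset.mem_erase] at hx
    rw [sw_other I hx.1 hx.2.1, Sx, Function.update_of_ne hx.2.1]
  rw [h1, sw_left, sw_right, hI, Sx, Function.update_self, Function.update_of_ne hkl]
  simp only [Aq]
  rw [pow_succ]
  ring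

theorem Lam_Psi (t : R) (r I : Equiv.Perm (Fin N)) (c : Fin N → R) :
    Lam t I (Psi t r I c) = Lam t r c := by
  revert I
  apply sw_induction r
  · rw [Psi_self]
  · intro I k l hI hr ih
    rw [Psi_swap' t r I k l hI hr, ← ih]
    have := Lam_swap t (sw k l I) l k (by rw [sw_left, sw_right]; exact hI)
      (Psi t r (sw k l I) c)
    rw [sw_sw] at this
    exact this

/-- Independence of the horizontal ordering. -/
theorem Psi_indep (t : Rˣ) (r r' I' : Equiv.Perm (Fin N)) (c c' : Fin N → R) :
    ∀ I : Equiv.Perm (Fin N),
      ((∀ a b, (r a < r b ↔ r' a < r' b) ∨ (I a < I b ↔ I' a < I' b)) →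
      Psi (t : R) r I c = Psi (t : R) r' I c' → Psi (t : R) r I' c = Psi (t : R) r' I' c') := by
  apply sw_induction I'
  · intro _ h; exact h
  · intro I k l hI hI' ih hag heq
    have hkl : k ≠ l := by rintro rfl; omega
    have hlt : I k < I l := Fin.lt_def.2 (by omega)
    have hinj : ∀ u v, (I u : ℕ) = I v → u = v := fun u v h => I.injective (Fin.ext h)
    have hrr : r k < r l ↔ r' k < r' l := by
      rcases hag k l with h | h
      · exact h
      · exact absurd (h.1 hlt) (not_lt.2 hI'.le)
    have hrr' : r l < r k ↔ r' l < r' k := by
      have a1 : r k ≠ r l := fun h => hkl (r.injective h)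
      have a2 : r' k ≠ r' l := fun h => hkl (r'.injective h)
      constructor
      · intro h
        have : ¬ r' k < r' l := fun h' => absurd (hrr.2 h') (not_lt.2 h.le)
        exact lt_of_le_of_ne (not_lt.1 this) a2.symm
      · intro h
        have : ¬ r k < r l := fun h' => absurd (hrr.1 h') (not_lt.2 h.le)
        exact lt_of_le_of_ne (not_lt.1 this) a1.symm
    apply ih
    · intro a b
      by_cases h1 : a = k ∧ b = l
      · left; rw [h1.1, h1.2]; exact hrr
      · by_cases h2 : a = l ∧ b = k
        · left; rw [h2.1, h2.2]; exact hrr'
        · have hsame : (sw k l I a < sw k l I b) ↔ (I a < I b) := by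
            by_cases hab : a = b
            · subst hab; simp
            · have nab : (I a : ℕ) ≠ I b := fun h => hab (hinj _ _ h)
              rw [Fin.lt_def, Fin.lt_def]
              by_cases ak : a = k
              · subst ak
                have bl : b ≠ l := fun h => h1 ⟨rfl, h⟩
                have nb : (I b : ℕ) ≠ I l := fun h => bl (hinj _ _ h)
                rw [sw_left, sw_other I (Ne.symm hab) bl]
                constructor <;> intro h4 <;> omega
              · by_cases al : a = l
                · subst al
                  have bk : b ≠ k := fun h => h2 ⟨rfl, h⟩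
                  have nb : (I b : ℕ) ≠ I k := fun h => bk (hinj _ _ h)
                  rw [sw_right, sw_other I bk (Ne.symm hab)]
                  constructor <;> intro h4 <;> omega
                · have n1 : (I a : ℕ) ≠ I k := fun h => ak (hinj _ _ h)
                  have n2 : (I a : ℕ) ≠ I l := fun h => al (hinj _ _ h)
                  rw [sw_other I ak al]
                  by_cases bk : b = k
                  · subst bk
                    rw [sw_left]
                    constructor <;> intro h4 <;> omega
                  · by_cases bl : b = l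
                    · subst bl
                      rw [sw_right]
                      constructor <;> intro h4 <;> omega
                    · rw [sw_other I bk bl]
          rcases hag a b with h | h
          · exact Or.inl h
          · exact Or.inr (hsame.trans h)
    · rcases lt_or_gt_of_ne (fun h => hkl (r.injective h) : r k ≠ r l) with h | h
      · rw [Psi_swap _ r I k l hI h, Psi_swap _ r' I k l hI (hrr.1 h), heq]
      · rw [Psi_swap' _ r I k l hI h, Psi_swap' _ r' I k l hI (hrr'.1 h)] at heq
        exact Sx_injective t hkl.symm heq

end

end Pool.Agent.MPbd
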