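import Mathlib
import Pool.Agent.Lib.MP_bd1dbb_gt.Approx

set_option autoImplicit false
set_option linter.unusedSectionVars false

/-!
Smith theory for maps of prime power period on compact metric spaces, with Alexander-Spanier type
cohomology given by list cochains on small lists.
-/

namespace Pool.Agent.MPbd

open Function Finset

/-- Lists of diameter less than `ε`. -/
def Ds {Z : Type*} [MetricSpace Z] (ε : ℝ) (x y : Z) : Prop := dist x y < ε

/-- Vanishing of the (augmented) cohomology of `Z` computed with cochains on small lists. -/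
def Acyc (K : Type*) [CommRing K] (Z : Type*) [MetricSpace Z] : Prop :=
  ∀ (n : ℕ) (ε : ℝ), 0 < ε → ∀ f : List Z → K,
    (∀ w, Cl (Ds ε) w → w.length = n + 1 → d f w = 0) →
    ∃ δ > 0, ∃ g : List Z → K, ∀ w, Cl (Ds δ) w → w.length = n → f w = d g w

theorem Acyc.transfer {K : Type*} [CommRing K] {A B : Type*} [MetricSpace A] [MetricSpace B]
    (φ : A → B) (ψ : B → A) (hφ : ∀ x y, dist (φ x) (φ y) = dist x y)
    (hψ : ∀ x y, dist (ψ x) (ψ y) = dist x y) (hφψ : ∀ b, φ (ψ b) = b) (H : Acyc K A) :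
    Acyc K B := by
  intro n ε hε f hf
  obtain ⟨δ, hδ, g, hg⟩ := H n ε hε (pull φ f) (by
    intro w hw hn
    rw [d_pull, pull_apply]
    apply hf
    · intro x hx y hy
      obtain ⟨x', hx', rfl⟩ := List.mem_map.1 hx
      obtain ⟨y', hy', rfl⟩ := List.mem_map.1 hy
      unfold Ds
      rw [hφ]; exact hw x' hx' y' hy'
    · simpa using hn)
  refine ⟨δ, hδ, pull ψ g, ?_⟩
  intro w hw hn
  rw [d_pull, pull_apply, ← hg, pull_apply, List.map_map]
  · congr 1
    conv_lhs => rw [← List.map_id w]
    apply List.map_congr_left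
    intro b _
    simp [hφψ]
  · intro x hx y hy
    obtain ⟨x', hx', rfl⟩ := List.mem_map.1 hx
    obtain ⟨y', hy', rfl⟩ := List.mem_map.1 hy
    unfold Ds
    rw [hψ]; exact hw x' hx' y' hy'
  · simpa using hn

section

variable {p : ℕ} [Fact p.Prime] {Z : Type*} [MetricSpace Z] {h : Z → Z}

/-- Vanishing of the special cohomology in degree `n` at scale `ε`. -/
def SS (p : ℕ) (h : Z → Z) (b : Bool) (n : ℕ) (ε : ℝ) : Prop :=
  ∀ f ∈ CC p h b (Dc p h ε) n 0, (∀ w, Cl (Dc p h ε) w → w.length = n + 1 → d f w = 0) →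
    ∃ δ > 0, ∃ g ∈ CC p h b (Dc p h δ) n 1, ∀ w, Cl (Dc p h δ) w → w.length = n → f w = d g w

theorem Cl_Dc_Ds {ε : ℝ} {w : List Z} (H : Cl (Dc p h ε) w) : Cl (Ds ε) w :=
  H.mono (fun _ _ h => h.dist_lt)

theorem Cl_Dc_mono {ε ε' : ℝ} (hε : ε ≤ ε') {w : List Z} (H : Cl (Dc p h ε) w) :
    Cl (Dc p h ε') w := H.mono (fun _ _ h => h.mono hε)

theorem SS_step [CompactSpace Z] (hp : ∀ z, h^[p] z = z) (hc : Continuous h)
    (hA : Acyc (ZMod p) Z) (b : Bool) (n : ℕ) {ε : ℝ} (hε : 0 < ε)
    (H : SS p h (!b) (n + 1) ε) : SS p h b n ε := by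
  intro f hf hcl
  obtain ⟨W, hW⟩ := exact_CC h hp (Dc_inv hp ε) b n f hf
  have hdW : d W ∈ CC p h (!b) (Dc p h ε) (n + 1) 0 := by
    intro w hw hn
    refine ⟨?_, ?_⟩
    · rw [Bool.not_not, ← rho_d]
      have : d (rho p h b W) w = d f w := by
        apply d_congr'
        intro u hu hu'
        exact (hW u (hw.of_subset hu') (by omega)).1
      rw [this]
      exact hcl w hw (by omega)
    · intro hfix
      apply d_eq_zero_of_faces
      intro u hu hu'
      exact (hW u (hw.of_subset hu') (by omega)).2 (fun x hx => hfix x (hu' x hx))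
  obtain ⟨δ₁, hδ₁, g, hg, hgd⟩ := H (d W) hdW (fun w _ _ => d_d W w)
  obtain ⟨δ₂, hδ₂, Hδ₂⟩ := exists_Dc (p := p) hc hδ₁
  obtain ⟨δ₃, hδ₃, u, hu⟩ := hA n δ₂ hδ₂ (W - g) (by
    intro w hw hn
    rw [map_sub, Pi.sub_apply, sub_eq_zero]
    exact hgd w (hw.mono (fun x y hxy => Hδ₂ x y hxy)) hn)
  have hm1 : min (min ε δ₁) δ₃ ≤ ε := (min_le_left _ _).trans (min_le_left _ _)
  have hm2 : min (min ε δ₁) δ₃ ≤ δ₁ := (min_le_left _ _).trans (min_le_right _ _)
  have hm3 : min (min ε δ₁) δ₃ ≤ δ₃ := min_le_right _ _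
  refine ⟨min (min ε δ₁) δ₃, lt_min (lt_min hε hδ₁) hδ₃, rho p h b u, ?_, ?_⟩
  · intro w hw hn
    refine ⟨?_, ?_⟩
    · have := rho_mul_rho h hp (!b) u
      rw [Bool.not_not] at this
      rw [this]; rfl
    · intro hfix
      exact rho_fixed h b u hfix
  · intro w hw hn
    have h1 := (hW w (Cl_Dc_mono hm1 hw) hn).1
    have h2 := (hg w (Cl_Dc_mono hm2 hw) (by omega)).1
    rw [Bool.not_not] at h2
    have h3 : rho p h b (W - g) w = rho p h b (d u) w := by
      apply rho_congr (Dc_inv hp δ₃) b (n := n) _ (Cl_Dc_mono hm3 hw) hn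
      intro v hv hvn
      exact hu v (Cl_Dc_Ds hv) hvn
    rw [map_sub, Pi.sub_apply, h1, h2, sub_zero] at h3
    rw [h3, ← rho_d]

theorem SS_large [CompactSpace Z] (hp : ∀ z, h^[p] z = z) (hc : Continuous h) {ε : ℝ}
    (hε : 0 < ε) : ∃ N : ℕ, ∀ n, N < n → ∀ b, SS p h b n ε := by
  classical
  have hr : 0 < ε / 3 := by positivity
  obtain ⟨δ₀, hδ₀, s, κ, L, hs, hsc, hκ, hκL, hκs⟩ := exists_approx hp hc hr
  refine ⟨L.length, ?_⟩
  intro n hn b f hf hcl
  set δ := min δ₀ (ε / 3) with hδdef
  have hδ : 0 < δ := lt_min hδ₀ hr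
  have hδ1 : δ ≤ δ₀ := min_le_left _ _
  have hδ2 : δ ≤ ε / 3 := min_le_right _ _
  set E : Z → Z → Prop := fun a a' => ∃ x y, Dc p h δ x y ∧ s x = a ∧ s y = a' with hE
  have hEε : ∀ a a', E a a' → Dc p h ε a a' := by
    rintro _ _ ⟨x, y, hxy, rfl, rfl⟩
    have := ((hsc x).symm.trans hxy).trans (hsc y)
    exact this.mono (by linarith)
  have hEinv : Inv h E := by
    rintro _ _ ⟨x, y, hxy, rfl, rfl⟩
    exact ⟨h x, h y, Dc_inv hp δ _ _ hxy, hs x, hs y⟩
  have hEκ : ∀ a a', E a a' → κ a = κ a' → a = a' := by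
    rintro _ _ ⟨x, y, hxy, rfl, rfl⟩ hk
    exact hκs x y (hxy.mono hδ1) hk
  have hEL : ∀ a, E a a → κ a ∈ L := by
    rintro _ ⟨x, y, -, rfl, -⟩
    exact hκL x
  have hClE : ∀ w, Cl E w → Cl (Dc p h ε) w := fun w hw => hw.mono hEε
  have hfA : f ∈ CC p h b E n 0 := fun w hw hn => hf w (hClE w hw) hn
  obtain ⟨g₀, hg₀, hg₀d⟩ := rank_vanish hEκ L hEL hn (CC p h b E n 0) (CC p h b E n 1)
    (by
      intro q f' hf' w hw hwn
      refine ⟨?_, ?_⟩
      · rw [← rho_comm h (Hop κ q) (fun f => Hop_pull κ q h hκ f)]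
        apply Hop_eq_zero
        intro a ha
        exact (hf' (a :: w) (hw.cons_mem ha) (by simp; omega)).1
      · intro hfix
        apply Hop_eq_zero
        intro a ha
        apply (hf' (a :: w) (hw.cons_mem ha) (by simp; omega)).2
        intro x hx
        rcases List.mem_cons.1 hx with rfl | hx
        · exact hfix _ ha
        · exact hfix x hx)
    (fun g hg => d_mem_CC h g hg) hfA (fun w hw hn => hcl w (hClE w hw) hn)
  -- lists with entries in `w ∪ s w`
  have hmix : ∀ w u : List Z, Cl (Dc p h δ) w → (∀ y ∈ u, ∃ x ∈ w, y = id x ∨ y = s x) →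
      Cl (Dc p h ε) u := by
    intro w u hw hu x hx y hy
    obtain ⟨x', hx', hx''⟩ := hu x hx
    obtain ⟨y', hy', hy''⟩ := hu y hy
    have hxy := hw x' hx' y' hy'
    have h1 : Dc p h (ε / 3) x x' := by
      rcases hx'' with rfl | rfl
      · exact Dc_self hr _
      · exact (hsc x').symm
    have h2 : Dc p h (ε / 3) y' y := by
      rcases hy'' with rfl | rfl
      · exact Dc_self hr _
      · exact hsc y'
    exact ((h1.trans hxy).trans h2).mono (by linarith)
  have hmap : ∀ w, Cl (Dc p h δ) w → Cl E (w.map s) := by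
    intro w hw x hx y hy
    obtain ⟨x', hx', rfl⟩ := List.mem_map.1 hx
    obtain ⟨y', hy', rfl⟩ := List.mem_map.1 hy
    exact ⟨x', y', hw x' hx' y' hy', rfl, rfl⟩
  have hfixmix : ∀ w u : List Z, (∀ x ∈ w, h x = x) → (∀ y ∈ u, ∃ x ∈ w, y = id x ∨ y = s x) →
      ∀ y ∈ u, h y = y := by
    intro w u hw hu y hy
    obtain ⟨x, hx, hx'⟩ := hu y hy
    rcases hx' with rfl | rfl
    · exact hw _ hx
    · rw [← hs, hw x hx]
  have hpull : ∀ f : List Z → ZMod p, rho p h (!b) (pull s f) = pull s (rho p h (!b) f) := by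
    intro f
    rw [rho_comm h (pull s) (fun f => by
      funext w
      rw [pull_apply, pull_apply, pull_apply, pull_apply, List.map_map, List.map_map]
      congr 2
      funext z
      simp [hs])]
  have hprism : ∀ f : List Z → ZMod p,
      prism id s (rho p h (!b) f) = rho p h (!b) (prism id s f) := by
    intro f
    apply rho_comm
    intro f
    exact prism_pull id s id s h h (fun z => rfl) (fun z => (hs z).symm) f
  refine ⟨δ, hδ, pull s g₀ - prism id s f, ?_, ?_⟩
  · apply Submodule.sub_mem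
    · intro w hw hwn
      refine ⟨?_, ?_⟩
      · rw [hpull, pull_apply]
        exact (hg₀ (w.map s) (hmap w hw) (by simpa using hwn)).1
      · intro hfix
        rw [pull_apply]
        apply (hg₀ (w.map s) (hmap w hw) (by simpa using hwn)).2
        intro x hx
        obtain ⟨x', hx', rfl⟩ := List.mem_map.1 hx
        rw [← hs, hfix x' hx']
    · intro w hw hwn
      refine ⟨?_, ?_⟩
      · rw [← hprism]
        apply prism_eq_zero
        intro u hu hu'
        exact (hf u (hmix w u hw hu') (by omega)).1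
      · intro hfix
        apply prism_eq_zero
        intro u hu hu'
        exact (hf u (hmix w u hw hu') (by omega)).2 (hfixmix w u hfix hu')
  · intro w hw hwn
    have h1 := prism_identity id s f w
    have h2 : prism id s (d f) w = 0 := by
      apply prism_eq_zero
      intro u hu hu'
      exact hcl u (hmix w u hw hu') (by omega)
    have h3 := hg₀d (w.map s) (hmap w hw) (by simpa using hwn)
    rw [h2, zero_add, h3, List.map_id, d_map] at h1
    rw [map_sub, Pi.sub_apply, h1]
    ring

theorem SS_all [CompactSpace Z] (hp : ∀ z, h^[p] z = z) (hc : Continuous h)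
    (hA : Acyc (ZMod p) Z) {ε : ℝ} (hε : 0 < ε) (n : ℕ) (b : Bool) : SS p h b n ε := by
  obtain ⟨N, hN⟩ := SS_large hp hc hε
  have key : ∀ k n b, N < n + k → SS p h b n ε := by
    intro k
    induction k with
    | zero => intro n b hn; exact hN n (by simpa using hn) b
    | succ k ih =>
      intro n b hn
      apply SS_step hp hc hA b n hε
      apply ih
      omega
  exact key (N + 1) n b (by omega)

open Classical in
/-- Convert a list in `Z` to the list of its fixed entries. -/
noncomputable def toFix (h : Z → Z) (w : List Z) : List {z // h z = z} :=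
  w.filterMap (fun z => if hz : h z = z then some ⟨z, hz⟩ else none)

theorem toFix_map (u : List {z // h z = z}) : toFix h (u.map Subtype.val) = u := by
  unfold toFix
  rw [List.filterMap_map]
  conv_rhs => rw [← List.filterMap_some (l := u)]
  congr 1
  funext z
  simp [z.2]

theorem map_toFix {w : List Z} (hw : ∀ x ∈ w, h x = x) : (toFix h w).map Subtype.val = w := by
  induction w with
  | nil => rfl
  | cons x w ih =>
    have hx : h x = x := hw x (by simp)
    have h1 : toFix h (x :: w) = ⟨x, hx⟩ :: toFix h w := by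
      unfold toFix
      rw [List.filterMap_cons_some (b := (⟨x, hx⟩ : {z // h z = z}))]
      rw [dif_pos hx]
    rw [h1, List.map_cons, ih (fun y hy => hw y (by simp [hy]))]

/-- Smith's theorem: the fixed point set of a map of prime period on an acyclic compact metric
space is acyclic. -/
theorem smith_prime [CompactSpace Z] (hp : ∀ z, h^[p] z = z) (hc : Continuous h)
    (hA : Acyc (ZMod p) Z) : Acyc (ZMod p) {z // h z = z} := by
  classical
  intro n ε hε f hf
  set F : List Z → ZMod p := fun w => if ∀ x ∈ w, h x = x then f (toFix h w) else 0 with hF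
  have hpF : pull Subtype.val F = f := by
    funext u
    rw [pull_apply]
    have h1 : ∀ x ∈ u.map Subtype.val, h x = x := by
      intro x hx
      obtain ⟨y, _, rfl⟩ := List.mem_map.1 hx
      exact y.2
    rw [hF]; beta_reduce
    rw [if_pos h1, toFix_map]
  have hDsub : ∀ (ε' : ℝ) (w : List {z // h z = z}), Cl (Ds ε') (w.map Subtype.val) ↔
      Cl (Ds ε') w := by
    intro ε' w
    constructor
    · intro H x hx y hy
      exact H x.1 (List.mem_map.2 ⟨x, hx, rfl⟩) y.1 (List.mem_map.2 ⟨y, hy, rfl⟩)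
    · intro H x hx y hy
      obtain ⟨x', hx', rfl⟩ := List.mem_map.1 hx
      obtain ⟨y', hy', rfl⟩ := List.mem_map.1 hy
      exact H x' hx' y' hy'
  have hdF : d F ∈ CC p h true (Dc p h ε) (n + 1) 0 := by
    intro w hw hn
    refine ⟨?_, ?_⟩
    · rw [Bool.not_true, ← rho_d]
      have h1 : rho p h false F = 0 := by
        funext u
        rw [rho_false_apply]
        by_cases hu : ∀ x ∈ u, h x = x
        · rw [map_of_fixed h hu, sub_self]; rfl
        · have h2 : ¬ ∀ x ∈ u.map h, h x = x := by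
            intro h3
            apply hu
            intro x hx
            have h4 := h3 (h x) (List.mem_map.2 ⟨x, hx, rfl⟩)
            -- `h (h x) = h x` so `h x` is fixed and `x = h^[p] x` is fixed
            have hpos : 0 < p := (Fact.out : p.Prime).pos
            obtain ⟨q, hq⟩ := Nat.exists_eq_add_of_le' hpos
            have h5 := hp x
            rw [hq, Function.iterate_succ_apply, iterate_fixed h4] at h5
            exact h5
          rw [hF]; beta_reduce
          rw [if_neg hu, if_neg h2, sub_zero]; rfl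
      rw [h1, map_zero]; rfl
    · intro hfix
      have h1 := map_toFix hfix
      rw [← h1, d_map, hpF]
      apply hf
      · rw [← hDsub, h1]
        exact Cl_Dc_Ds hw
      · have := congrArg List.length h1
        rw [List.length_map] at this
        rw [this]; omega
  obtain ⟨δ₁, hδ₁, g, hg, hgd⟩ := SS_all hp hc hA hε (n + 1) true (d F) hdF
    (fun w _ _ => d_d F w)
  obtain ⟨δ₂, hδ₂, Hδ₂⟩ := exists_Dc (p := p) hc hδ₁
  obtain ⟨δ₃, hδ₃, u, hu⟩ := hA n δ₂ hδ₂ (F - g) (by
    intro w hw hn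
    rw [map_sub, Pi.sub_apply, sub_eq_zero]
    exact hgd w (hw.mono (fun x y hxy => Hδ₂ x y hxy)) hn)
  refine ⟨min δ₂ δ₃, lt_min hδ₂ hδ₃, pull Subtype.val u, ?_⟩
  intro w hw hn
  have h1 : Cl (Ds δ₃) (w.map Subtype.val) :=
    (hDsub δ₃ w).2 (hw.mono (fun x y hxy => lt_of_lt_of_le hxy (min_le_right _ _)))
  have h2 : Cl (Dc p h δ₁) (w.map Subtype.val) :=
    ((hDsub δ₂ w).2 (hw.mono (fun x y hxy => lt_of_lt_of_le hxy (min_le_left _ _)))).mono
      (fun x y hxy => Hδ₂ x y hxy)
  have h3 := hu (w.map Subtype.val) h1 (by simpa using hn)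
  have h4 := (hg (w.map Subtype.val) h2 (by simpa using hn)).2 (by
    intro x hx
    obtain ⟨y, _, rfl⟩ := List.mem_map.1 hx
    exact y.2)
  rw [Pi.sub_apply, h4, sub_zero, d_map] at h3
  rw [← h3, ← hpF]; rfl

end

/-- Smith's theorem for maps whose period is a power of a prime. -/
theorem smith_pow {p : ℕ} [Fact p.Prime] (m : ℕ) : ∀ {Z : Type} [MetricSpace Z] [CompactSpace Z]
    {h : Z → Z}, (∀ z, h^[p ^ m] z = z) → Continuous h → Acyc (ZMod p) Z →
    Acyc (ZMod p) {z // h z = z} := by
  induction m with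
  | zero =>
    intro Z _ _ h hp _ hA
    have hp' : ∀ z, h z = z := fun z => by simpa using hp z
    exact Acyc.transfer (fun z => (⟨z, hp' z⟩ : {z // h z = z})) Subtype.val (fun _ _ => rfl)
      (fun _ _ => rfl) (fun _ => rfl) hA
  | succ m ih =>
    intro Z _ _ h hp hc hA
    have hk : ∀ z, (h^[p ^ m])^[p] z = z := by
      intro z
      rw [← iterate_mul, ← pow_succ]; exact hp z
    have hkc : Continuous (h^[p ^ m]) := hc.iterate _
    have hA₁ := smith_prime hk hkc hA
    have hcl : IsClosed {z | h^[p ^ m] z = z} := isClosed_eq hkc continuous_id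
    have : CompactSpace {z // h^[p ^ m] z = z} := isCompact_iff_compactSpace.1 hcl.isCompact
    let h₁ : {z // h^[p ^ m] z = z} → {z // h^[p ^ m] z = z} := fun z => ⟨h z.1, by
      rw [← iterate_succ_apply, iterate_succ_apply', z.2]⟩
    have hit : ∀ (j : ℕ) (z : {z // h^[p ^ m] z = z}), (h₁^[j] z).1 = h^[j] z.1 := by
      intro j
      induction j with
      | zero => intro z; rfl
      | succ j ihj => intro z; rw [iterate_succ_apply', iterate_succ_apply', ← ihj]
    have hh₁ : ∀ z, h₁^[p ^ m] z = z := by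
      intro z
      apply Subtype.ext
      rw [hit]; exact z.2
    have hc₁ : Continuous h₁ := Continuous.subtype_mk (hc.comp continuous_subtype_val) _
    have hA₂ := ih hh₁ hc₁ hA₁
    refine Acyc.transfer (A := {z : {z // h^[p ^ m] z = z} // h₁ z = z})
      (fun z => ⟨z.1.1, congrArg Subtype.val z.2⟩)
      (fun z => ⟨⟨z.1, iterate_fixed z.2 _⟩, Subtype.ext z.2⟩) (fun _ _ => rfl) (fun _ _ => rfl)
      (fun _ => rfl) hA₂

end Pool.Agent.MPbd
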