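import Mathlib
import Pool.Agent.Lib.MP_bd1dbb_gt.Smith

set_option autoImplicit false
set_option linter.unusedSectionVars false

/-!
Disk-like spaces: acyclicity and vanishing of nonabelian first cohomology.
-/

namespace Pool.Agent.MPbd

open Function Finset

/-- The plane. -/
abbrev Plane := EuclideanSpace ℝ (Fin 2)

/-- Disk-like spaces. -/
def DiskLike (X : Type) [MetricSpace X] : Prop :=
  ∀ ε : ℝ, 0 < ε → ∃ f : X → Plane, Continuous f ∧
    Set.range f = Metric.closedBall (0 : Plane) 1 ∧
    ∀ y : Plane, Metric.diam (f ⁻¹' {y}) < ε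

variable {X : Type} [MetricSpace X] [CompactSpace X]

/-- If fibres are small then close images imply close points. -/
theorem close_of_fibres {E : Type*} [MetricSpace E] {f : X → E} (hf : Continuous f) {r : ℝ}
    (hfib : ∀ x y, f x = f y → dist x y < r) :
    ∃ η > 0, ∀ x y, dist (f x) (f y) < η → dist x y < r := by
  set S : Set (X × X) := {q | r ≤ dist q.1 q.2} with hS
  have hcl : IsClosed S := isClosed_le continuous_const (continuous_fst.dist continuous_snd)
  have hcomp : IsCompact S := hcl.isCompact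
  rcases S.eq_empty_or_nonempty with hemp | hne
  · refine ⟨1, one_pos, ?_⟩
    intro x y _
    by_contra hcon
    push Not at hcon
    have : (x, y) ∈ S := hcon
    rw [hemp] at this
    exact this
  · obtain ⟨q, hq, hmin⟩ := hcomp.exists_isMinOn hne
      (f := fun q => dist (f q.1) (f q.2))
      ((hf.comp continuous_fst).dist (hf.comp continuous_snd)).continuousOn
    have hpos : 0 < dist (f q.1) (f q.2) := by
      rcases (dist_nonneg (x := f q.1) (y := f q.2)).lt_or_eq with h1 | h1
      · exact h1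
      · exfalso
        have h2 : f q.1 = f q.2 := dist_eq_zero.1 h1.symm
        have h3 := hfib _ _ h2
        have h4 : r ≤ dist q.1 q.2 := hq
        linarith
    refine ⟨dist (f q.1) (f q.2), hpos, ?_⟩
    intro x y hxy
    by_contra hcon
    push Not at hcon
    have h1 : (x, y) ∈ S := hcon
    have h2 := hmin h1
    simp only [Set.mem_ofPred_eq] at h2
    linarith

/-- Approximation of a disk-like space by the disk. -/
theorem DiskLike.approx (H : DiskLike X) {r : ℝ} (hr : 0 < r) :
    ∃ η > 0, ∃ (α : X → Plane) (σ : Plane → X), UniformContinuous α ∧ (∀ x, ‖α x‖ ≤ 1) ∧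
      (∀ z, ‖z‖ ≤ 1 → α (σ z) = z) ∧ ∀ x y, dist (α x) (α y) < η → dist x y < r := by
  obtain ⟨f, hf, hrange, hdiam⟩ := H r hr
  have hfib : ∀ x y, f x = f y → dist x y < r := by
    intro x y hxy
    have hb : Bornology.IsBounded (f ⁻¹' {f x}) := Metric.isBounded_of_compactSpace
    exact lt_of_le_of_lt (Metric.dist_le_diam_of_mem hb (by simp) (by simp [hxy])) (hdiam (f x))
  obtain ⟨η, hη, Hη⟩ := close_of_fibres hf hfib
  have hne : Nonempty X := by
    have : (0 : Plane) ∈ Set.range f := by rw [hrange]; simp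
    obtain ⟨x, _⟩ := this
    exact ⟨x⟩
  have hσ : ∀ z : Plane, ∃ x : X, ‖z‖ ≤ 1 → f x = z := by
    intro z
    by_cases hz : ‖z‖ ≤ 1
    · have : z ∈ Set.range f := by rw [hrange]; simpa using hz
      obtain ⟨x, hx⟩ := this
      exact ⟨x, fun _ => hx⟩
    · exact ⟨hne.some, fun h => absurd h hz⟩
  choose σ hσ using hσ
  refine ⟨η, hη, f, σ, CompactSpace.uniformContinuous_of_continuous hf, ?_, hσ, Hη⟩
  intro x
  have : f x ∈ Metric.closedBall (0 : Plane) 1 := by rw [← hrange]; exact ⟨x, rfl⟩
  simpa using this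

/-- Coboundary of a constant cochain. -/
theorem d_const {Z K : Type*} [CommRing K] (c : K) (w : List Z) :
    d (fun _ => c) w = if Odd w.length then c else 0 := by
  induction w with
  | nil => simp
  | cons x w ih =>
    rw [d_cons, ih, List.length_cons]
    by_cases h : Odd w.length
    · rw [if_pos h, sub_self, if_neg]
      rw [Nat.not_odd_iff_even]; exact h.add_one
    · rw [if_neg h, sub_zero, if_pos]
      exact (Nat.not_odd_iff_even.1 h).add_one

theorem DiskLike.acyc (H : DiskLike X) (K : Type*) [CommRing K] : Acyc K X := by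
  intro n ε hε f hf
  have hr : 0 < ε / 2 := by positivity
  obtain ⟨η, hη, α, σ, hα, hα1, hσ, Hη⟩ := H.approx hr
  obtain ⟨δ', hδ', Hδ'⟩ := Metric.uniformContinuous_iff.1 hα (η / 2) (by positivity)
  set s : X → X := fun x => σ (α x) with hs
  have hαs : ∀ x, α (s x) = α x := fun x => hσ _ (hα1 x)
  have hsx : ∀ x, dist (s x) x < ε / 2 := by
    intro x
    apply Hη
    rw [hαs, dist_self]; exact hη
  -- the cochain on the disk
  set fD : List Plane → K := pull σ f with hfD
  have hfDc : ∀ w : List Plane, (∀ z ∈ w, ‖z‖ ≤ 1) → Cl (Ds η) w → w.length = n + 1 →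
      d fD w = 0 := by
    intro w hw1 hw hwn
    rw [hfD, d_pull, pull_apply]
    apply hf
    · intro x hx y hy
      obtain ⟨x', hx', rfl⟩ := List.mem_map.1 hx
      obtain ⟨y', hy', rfl⟩ := List.mem_map.1 hy
      have : dist (σ x') (σ y') < ε / 2 := by
        apply Hη
        rw [hσ _ (hw1 _ hx'), hσ _ (hw1 _ hy')]
        exact hw x' hx' y' hy'
      exact lt_trans this (by linarith)
    · simpa using hwn
  -- contraction
  obtain ⟨N, hN⟩ := exists_nat_gt (2 / η)
  have hN0 : (0 : ℝ) < N := lt_trans (by positivity) hN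
  have hNη : 1 / (N : ℝ) < η / 2 := by
    rw [div_lt_iff₀ hN0]
    rw [div_lt_iff₀ hη] at hN
    linarith
  set a : ℕ → Plane → Plane := fun j z => (1 - (j : ℝ) / N) • z with ha
  have hanorm : ∀ j ≤ N, ∀ z : Plane, ‖z‖ ≤ 1 → ‖a j z‖ ≤ 1 := by
    intro j hj z hz
    have hj' : (j : ℝ) / N ≤ 1 := by
      rw [div_le_one hN0]; exact_mod_cast hj
    have hj0 : 0 ≤ (j : ℝ) / N := by positivity
    rw [ha]; beta_reduce
    rw [norm_smul, Real.norm_eq_abs, abs_of_nonneg (by linarith)]
    calc (1 - (j : ℝ) / N) * ‖z‖ ≤ 1 * 1 :=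
        mul_le_mul (by linarith) hz (norm_nonneg _) zero_le_one
      _ = 1 := by norm_num
  have hadist : ∀ j ≤ N, ∀ z z' : Plane, dist (a j z) (a j z') ≤ dist z z' := by
    intro j hj z z'
    have hj' : (j : ℝ) / N ≤ 1 := by
      rw [div_le_one hN0]; exact_mod_cast hj
    have hj0 : 0 ≤ (j : ℝ) / N := by positivity
    rw [ha]; beta_reduce
    rw [dist_smul₀, Real.norm_eq_abs, abs_of_nonneg (by linarith)]
    calc (1 - (j : ℝ) / N) * dist z z' ≤ 1 * dist z z' :=
        mul_le_mul_of_nonneg_right (by linarith) dist_nonneg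
      _ = dist z z' := by ring
  have hastep : ∀ j, ∀ z : Plane, ‖z‖ ≤ 1 → dist (a j z) (a (j + 1) z) ≤ 1 / N := by
    intro j z hz
    rw [dist_eq_norm, ha]; beta_reduce
    rw [← sub_smul, norm_smul]
    have : (1 - (j : ℝ) / N) - (1 - ((j + 1 : ℕ) : ℝ) / N) = 1 / N := by
      push_cast; ring
    rw [this, Real.norm_eq_abs, abs_of_nonneg (by positivity)]
    calc 1 / (N : ℝ) * ‖z‖ ≤ 1 / N * 1 := mul_le_mul_of_nonneg_left hz (by positivity)
      _ = 1 / N := by ring
  have hcon : ∀ k ≤ N, ∃ G : List Plane → K, ∀ w : List Plane, (∀ z ∈ w, ‖z‖ ≤ 1) →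
      Cl (Ds (η / 2)) w → w.length = n → fD (w.map (a k)) - fD w = d G w := by
    intro k
    induction k with
    | zero =>
      intro _
      refine ⟨0, ?_⟩
      intro w _ _ _
      have : w.map (a 0) = w := by
        conv_rhs => rw [← List.map_id w]
        apply List.map_congr_left
        intro z _
        simp [ha]
      rw [this, map_zero, sub_self]; rfl
    | succ k ih =>
      intro hk
      obtain ⟨G, hG⟩ := ih (by omega)
      refine ⟨G + prism (a k) (a (k + 1)) fD, ?_⟩
      intro w hw1 hw hwn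
      have h1 := prism_identity (a k) (a (k + 1)) fD w
      have h2 : prism (a k) (a (k + 1)) (d fD) w = 0 := by
        apply prism_eq_zero
        intro u hu hu'
        apply hfDc u
        · intro y hy
          obtain ⟨x, hx, hx'⟩ := hu' y hy
          rcases hx' with rfl | rfl
          · exact hanorm k (by omega) x (hw1 x hx)
          · exact hanorm (k + 1) hk x (hw1 x hx)
        · intro y hy y' hy'
          obtain ⟨x, hx, hxy⟩ := hu' y hy
          obtain ⟨x', hx', hxy'⟩ := hu' y' hy'
          have h3 : dist x x' < η / 2 := hw x hx x' hx'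
          have h4 : dist (a k x) (a k x') ≤ dist x x' := hadist k (by omega) x x'
          have h5 : dist (a (k + 1) x) (a (k + 1) x') ≤ dist x x' := hadist (k + 1) hk x x'
          have h6 := hastep k x (hw1 x hx)
          have h7 := hastep k x' (hw1 x' hx')
          unfold Ds
          rcases hxy with rfl | rfl <;> rcases hxy' with rfl | rfl
          · linarith
          · have := dist_triangle (a k x) (a (k + 1) x) (a (k + 1) x')
            linarith
          · have := dist_triangle (a (k + 1) x) (a k x) (a k x')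
            rw [dist_comm (a (k + 1) x) (a k x)] at this
            linarith
          · linarith
        · omega
      rw [h2, zero_add] at h1
      rw [map_add, Pi.add_apply, h1, ← hG w hw1 hw hwn]
      ring
  obtain ⟨G, hG⟩ := hcon N le_rfl
  have hlast : ∀ w : List Plane, w.map (a N) = List.replicate w.length 0 := by
    intro w
    rw [← List.map_const']
    apply List.map_congr_left
    intro z _
    rw [ha]; beta_reduce
    rw [div_self hN0.ne', sub_self, zero_smul]
  set c : K := fD (List.replicate n 0) with hc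
  have hconst : ∃ g₂ : List Plane → K, ∀ w : List Plane, w.length = n → d g₂ w = c := by
    by_cases hodd : Odd n
    · refine ⟨fun _ => c, ?_⟩
      intro w hw
      rw [d_const, hw, if_pos hodd]
    · have h1 : d fD (List.replicate (n + 1) (0 : Plane)) = 0 := by
        apply hfDc
        · intro z hz
          rw [List.eq_of_mem_replicate hz]; simp
        · intro x hx y hy
          rw [List.eq_of_mem_replicate hx, List.eq_of_mem_replicate hy]
          unfold Ds
          rw [dist_self]; exact hη
        · simp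
      have h2 : d fD (List.replicate (n + 1) (0 : Plane)) =
          d (fun _ => c) (List.replicate (n + 1) (0 : Plane)) := by
        apply d_congr'
        intro u hu hu'
        have : u = List.replicate n 0 := by
          rw [List.eq_replicate_iff]
          refine ⟨by simpa using hu, ?_⟩
          intro b hb
          exact List.eq_of_mem_replicate (hu' b hb)
        rw [this]
      rw [h2, d_const, if_pos] at h1
      · refine ⟨0, ?_⟩
        intro w _
        rw [map_zero, h1]; rfl
      · rw [List.length_replicate]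
        exact (Nat.not_odd_iff_even.1 hodd).add_one
  obtain ⟨g₂, hg₂⟩ := hconst
  refine ⟨min δ' (ε / 2), lt_min hδ' hr, pull α (g₂ - G) - prism id s f, ?_⟩
  intro w hw hwn
  have hw1 : Cl (Ds δ') w := hw.mono (fun x y hxy => lt_of_lt_of_le hxy (min_le_left _ _))
  have hw2 : Cl (Ds (ε / 2)) w := hw.mono (fun x y hxy => lt_of_lt_of_le hxy (min_le_right _ _))
  have h1 := prism_identity id s f w
  have h2 : prism id s (d f) w = 0 := by
    apply prism_eq_zero
    intro u hu hu'
    apply hf u
    · intro y hy y' hy'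
      obtain ⟨x, hx, hxy⟩ := hu' y hy
      obtain ⟨x', hx', hxy'⟩ := hu' y' hy'
      have h3 : dist x x' < ε / 2 := hw2 x hx x' hx'
      have h4 := hsx x
      have h5 := hsx x'
      unfold Ds
      rcases hxy with rfl | rfl <;> rcases hxy' with rfl | rfl
      · linarith
      · have := dist_triangle y x' (s x')
        rw [dist_comm x' (s x')] at this
        linarith
      · have := dist_triangle (s x) x y'
        linarith
      · have : dist (s x) (s x') < ε / 2 := by
          apply Hη
          rw [hαs, hαs]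
          exact lt_trans (Hδ' (hw1 x hx x' hx')) (by linarith)
        linarith
    · omega
  rw [h2, zero_add, List.map_id] at h1
  have h3 := hG (w.map α) (by
    intro z hz
    obtain ⟨x, _, rfl⟩ := List.mem_map.1 hz
    exact hα1 x) (by
    intro z hz z' hz'
    obtain ⟨x, hx, rfl⟩ := List.mem_map.1 hz
    obtain ⟨x', hx', rfl⟩ := List.mem_map.1 hz'
    exact Hδ' (hw1 x hx x' hx')) (by simpa using hwn)
  rw [hlast, List.length_map, hwn, ← hc] at h3
  have h4 : fD (w.map α) = f (w.map s) := by
    rw [hfD, pull_apply, List.map_map]; rfl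
  have h5 := hg₂ (w.map α) (by simpa using hwn)
  rw [map_sub, Pi.sub_apply, h1, d_pull, pull_apply, map_sub, Pi.sub_apply, h5, ← h3, h4]
  ring

/-- Ladder lemma: vanishing of the nonabelian first cohomology. -/
theorem DiskLike.ladder (H : DiskLike X) {𝒢 : Type*} [Group 𝒢] (T : X → X → 𝒢) {δ₀ : ℝ}
    (hδ₀ : 0 < δ₀) (hT : ∀ x x' x'', dist x x' < δ₀ → dist x' x'' < δ₀ → dist x x'' < δ₀ →
      T x' x'' * T x x' = T x x'') :
    ∃ (Y : X → 𝒢) (δ₁ : ℝ), 0 < δ₁ ∧ ∀ x x', dist x x' < δ₁ → Y x' = T x x' * Y x := by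
  have hr : 0 < δ₀ / 2 := by positivity
  obtain ⟨η, hη, α, σ, hα, hα1, hσ, Hη⟩ := H.approx hr
  obtain ⟨δ', hδ', Hδ'⟩ := Metric.uniformContinuous_iff.1 hα (η / 2) (by positivity)
  set s : X → X := fun x => σ (α x) with hs
  have hαs : ∀ x, α (s x) = α x := fun x => hσ _ (hα1 x)
  have hsx : ∀ x, dist (s x) x < δ₀ / 2 := by
    intro x
    apply Hη
    rw [hαs, dist_self]; exact hη
  set TD : Plane → Plane → 𝒢 := fun z z' => T (σ z) (σ z') with hTD
  have hσd : ∀ z z' : Plane, ‖z‖ ≤ 1 → ‖z'‖ ≤ 1 → dist z z' < η → dist (σ z) (σ z') < δ₀ := by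
    intro z z' hz hz' hzz
    have : dist (σ z) (σ z') < δ₀ / 2 := by
      apply Hη
      rw [hσ _ hz, hσ _ hz']; exact hzz
    linarith
  have hTDc : ∀ z z' z'' : Plane, ‖z‖ ≤ 1 → ‖z'‖ ≤ 1 → ‖z''‖ ≤ 1 → dist z z' < η →
      dist z' z'' < η → dist z z'' < η → TD z' z'' * TD z z' = TD z z'' := by
    intro z z' z'' hz hz' hz'' h1 h2 h3
    exact hT _ _ _ (hσd _ _ hz hz' h1) (hσd _ _ hz' hz'' h2) (hσd _ _ hz hz'' h3)
  obtain ⟨N, hN⟩ := exists_nat_gt (2 / η)
  have hN0 : (0 : ℝ) < N := lt_trans (by positivity) hN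
  have hNη : 1 / (N : ℝ) < η / 2 := by
    rw [div_lt_iff₀ hN0]
    rw [div_lt_iff₀ hη] at hN
    linarith
  set a : ℕ → Plane → Plane := fun j z => ((j : ℝ) / N) • z with ha
  have hcoef : ∀ j ≤ N, (j : ℝ) / N ≤ 1 := by
    intro j hj
    rw [div_le_one hN0]; exact_mod_cast hj
  have hanorm : ∀ j ≤ N, ∀ z : Plane, ‖z‖ ≤ 1 → ‖a j z‖ ≤ 1 := by
    intro j hj z hz
    have hj' := hcoef j hj
    have hj0 : 0 ≤ (j : ℝ) / N := by positivity
    rw [ha]; beta_reduce
    rw [norm_smul, Real.norm_eq_abs, abs_of_nonneg hj0]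
    calc ((j : ℝ) / N) * ‖z‖ ≤ 1 * 1 :=
        mul_le_mul hj' hz (norm_nonneg _) zero_le_one
      _ = 1 := by norm_num
  have hadist : ∀ j ≤ N, ∀ z z' : Plane, dist (a j z) (a j z') ≤ dist z z' := by
    intro j hj z z'
    have hj' := hcoef j hj
    have hj0 : 0 ≤ (j : ℝ) / N := by positivity
    rw [ha]; beta_reduce
    rw [dist_smul₀, Real.norm_eq_abs, abs_of_nonneg hj0]
    calc ((j : ℝ) / N) * dist z z' ≤ 1 * dist z z' :=
        mul_le_mul_of_nonneg_right hj' dist_nonneg
      _ = dist z z' := by ring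
  have hastep : ∀ j, ∀ z : Plane, ‖z‖ ≤ 1 → dist (a j z) (a (j + 1) z) ≤ 1 / N := by
    intro j z hz
    rw [dist_comm, dist_eq_norm, ha]; beta_reduce
    rw [← sub_smul, norm_smul]
    have : ((j + 1 : ℕ) : ℝ) / N - (j : ℝ) / N = 1 / N := by
      push_cast; ring
    rw [this, Real.norm_eq_abs, abs_of_nonneg (by positivity)]
    calc 1 / (N : ℝ) * ‖z‖ ≤ 1 / N * 1 := mul_le_mul_of_nonneg_left hz (by positivity)
      _ = 1 / N := by ring
  -- the section along rays
  let YD : ℕ → Plane → 𝒢 := fun j z => Nat.rec 1 (fun i g => TD (a i z) (a (i + 1) z) * g) j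
  have hYD0 : ∀ z, YD 0 z = 1 := fun z => rfl
  have hYDs : ∀ j z, YD (j + 1) z = TD (a j z) (a (j + 1) z) * YD j z := fun j z => rfl
  have hYD : ∀ j ≤ N, ∀ z z' : Plane, ‖z‖ ≤ 1 → ‖z'‖ ≤ 1 → dist z z' < η / 2 →
      YD j z' = TD (a j z) (a j z') * YD j z := by
    intro j
    induction j with
    | zero =>
      intro _ z z' _ _ _
      have h1 : a 0 z = 0 := by simp [ha]
      have h2 : a 0 z' = 0 := by simp [ha]
      rw [hYD0, hYD0, h1, h2, mul_one]
      have h3 := hTDc 0 0 0 (by simp) (by simp) (by simp) (by simpa using hη) (by simpa using hη)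
        (by simpa using hη)
      exact (mul_eq_left.1 h3).symm
    | succ j ih =>
      intro hj z z' hz hz' hzz
      rw [hYDs, hYDs, ih (by omega) z z' hz hz' hzz]
      have n1 := hanorm j (by omega) z hz
      have n2 := hanorm j (by omega) z' hz'
      have n3 := hanorm (j + 1) hj z hz
      have n4 := hanorm (j + 1) hj z' hz'
      have d1 := hadist j (by omega) z z'
      have d2 := hadist (j + 1) hj z z'
      have d3 := hastep j z hz
      have d4 := hastep j z' hz'
      have d5 := dist_triangle (a j z) (a j z') (a (j + 1) z')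
      have e1 := hTDc (a j z) (a j z') (a (j + 1) z') n1 n2 n4 (by linarith) (by linarith)
        (by linarith)
      have e2 := hTDc (a j z) (a (j + 1) z) (a (j + 1) z') n1 n3 n4 (by linarith) (by linarith)
        (by linarith)
      rw [← mul_assoc, ← mul_assoc, e1, e2]
  refine ⟨fun x => T (s x) x * YD N (α x), min δ' (δ₀ / 2), lt_min hδ' hr, ?_⟩
  intro x x' hxx
  have h1 : dist (α x) (α x') < η / 2 := Hδ' (lt_of_lt_of_le hxx (min_le_left _ _))
  have h2 : dist x x' < δ₀ / 2 := lt_of_lt_of_le hxx (min_le_right _ _)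
  have haN : ∀ z, a N z = z := by
    intro z
    rw [ha]; beta_reduce
    rw [div_self hN0.ne', one_smul]
  have h3 := hYD N le_rfl (α x) (α x') (hα1 x) (hα1 x') h1
  rw [haN, haN] at h3
  beta_reduce
  have hss : dist (s x) (s x') < δ₀ / 2 := by
    apply Hη
    rw [hαs, hαs]; linarith
  have d1 := hsx x
  have d2 := hsx x'
  have d3 := dist_triangle (s x) x x'
  have e1 := hT (s x) (s x') x' (by linarith) (by linarith) (by linarith)
  have e2 := hT (s x) x x' (by linarith) (by linarith) (by linarith)
  have hTDs : TD (α x) (α x') = T (s x) (s x') := rfl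
  rw [h3, hTDs, ← mul_assoc, e1, ← e2, mul_assoc]

end Pool.Agent.MPbd
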