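import Mathlib
import Pool.Agent.Lib.MP_bd1dbb_gt.Burau
import Pool.Agent.Lib.MP_bd1dbb_gt.Disk

set_option autoImplicit false
set_option linter.unusedSectionVars false

/-!
Transport of the Burau type representation between nearby configurations of points of the plane.
-/

namespace Pool.Agent.MPbd

open Function Finset

section orders

variable {N : ℕ}

/-- The ordering of the points of a configuration from left to right. -/
noncomputable def ordOf {L : Type*} [LinearOrder L] (f : Fin N → L) : Equiv.Perm (Fin N) :=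
  (Tuple.sort f).symm

theorem ordOf_lt {L : Type*} [LinearOrder L] {f : Fin N → L} (hf : Function.Injective f)
    (a b : Fin N) : ordOf f a < ordOf f b ↔ f a < f b := by
  have hmono : StrictMono (f ∘ Tuple.sort f) :=
    (Tuple.monotone_sort f).strictMono_of_injective (hf.comp (Tuple.sort f).injective)
  have := hmono.lt_iff_lt (a := ordOf f a) (b := ordOf f b)
  rw [← this]
  simp [ordOf]

theorem ordOf_comp {L : Type*} [LinearOrder L] {f : Fin N → L} (hf : Function.Injective f)
    (s : Equiv.Perm (Fin N)) : ordOf (fun k => f (s k)) = s.trans (ordOf f) := by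
  have h1 : Monotone ((fun k => f (s k)) ∘ (Tuple.sort (fun k => f (s k)))) :=
    Tuple.monotone_sort _
  have h2 : Monotone ((fun k => f (s k)) ∘ ((Tuple.sort f).trans s.symm)) := by
    have : (fun k => f (s k)) ∘ ((Tuple.sort f).trans s.symm) = f ∘ Tuple.sort f := by
      funext x; simp
    rw [this]; exact Tuple.monotone_sort f
  have h3 := Tuple.unique_monotone h1 h2
  have h4 : Tuple.sort (fun k => f (s k)) = (Tuple.sort f).trans s.symm := by
    apply Equiv.ext
    intro x
    have := congrFun h3 x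
    exact s.injective (hf this)
  unfold ordOf
  rw [h4]
  apply Equiv.ext
  intro x
  simp

/-- Left-right ordering of a planar configuration. -/
noncomputable def ordR (y : Fin N → Plane) : Equiv.Perm (Fin N) :=
  ordOf (fun k => toLex (y k 0, y k 1))

/-- Vertical ordering of a planar configuration. -/
noncomputable def ordI (y : Fin N → Plane) : Equiv.Perm (Fin N) :=
  ordOf (fun k => toLex (y k 1, y k 0))

theorem keyR_inj {y : Fin N → Plane} (hy : Function.Injective y) :
    Function.Injective (fun k => toLex (y k 0, y k 1)) := by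
  intro a b hab
  apply hy
  have h := toLex.injective hab
  rw [Prod.mk.injEq] at h
  ext i
  fin_cases i
  · exact h.1
  · exact h.2

theorem keyI_inj {y : Fin N → Plane} (hy : Function.Injective y) :
    Function.Injective (fun k => toLex (y k 1, y k 0)) := by
  intro a b hab
  apply hy
  have h := toLex.injective hab
  rw [Prod.mk.injEq] at h
  ext i
  fin_cases i
  · exact h.2
  · exact h.1

theorem ordR_comp {y : Fin N → Plane} (hy : Function.Injective y) (s : Equiv.Perm (Fin N)) :
    ordR (fun k => y (s k)) = s.trans (ordR y) :=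
  ordOf_comp (keyR_inj hy) s

theorem ordI_comp {y : Fin N → Plane} (hy : Function.Injective y) (s : Equiv.Perm (Fin N)) :
    ordI (fun k => y (s k)) = s.trans (ordI y) :=
  ordOf_comp (keyI_inj hy) s

theorem toLex_lt_iff_of_ne {u v u' v' : ℝ} (h : u ≠ u') :
    (toLex (u, v) < toLex (u', v')) ↔ u < u' := by
  rw [Prod.Lex.toLex_lt_toLex]
  constructor
  · rintro (h1 | ⟨h1, _⟩)
    · exact h1
    · exact absurd h1 h
  · intro h1; exact Or.inl h1

theorem coord_le (v : Plane) (i : Fin 2) : |v i| ≤ ‖v‖ := by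
  have := PiLp.norm_apply_le v i
  rwa [Real.norm_eq_abs] at this

theorem norm_le_coords (v : Plane) : ‖v‖ ≤ |v 0| + |v 1| := by
  rw [EuclideanSpace.norm_eq, Fin.sum_univ_two, Real.norm_eq_abs, Real.norm_eq_abs]
  apply Real.sqrt_le_iff.2
  refine ⟨by positivity, ?_⟩
  have h0 := abs_nonneg (v 0)
  have h1 := abs_nonneg (v 1)
  nlinarith [mul_nonneg h0 h1]

/-- `y` is an `η`-separated configuration. -/
def Sep (η : ℝ) (y : Fin N → Plane) : Prop := ∀ k l, k ≠ l → η ≤ dist (y k) (y l)

theorem Sep.inj {η : ℝ} (hη : 0 < η) {y : Fin N → Plane} (h : Sep η y) :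
    Function.Injective y := by
  intro a b hab
  by_contra hne
  have := h a b hne
  rw [hab, dist_self] at this
  linarith

/-- Nearby configurations: for every pair of labels, one of the two coordinates is far, and the
corresponding orderings agree. -/
theorem orders_agree {η : ℝ} (hη : 0 < η) {y y' y'' : Fin N → Plane} (hy : Sep η y)
    (hy' : Sep η y') (hy'' : Sep η y'')
    (h' : ∀ k, dist (y k) (y' k) < η / 8) (h'' : ∀ k, dist (y k) (y'' k) < η / 8)
    (a b : Fin N) :
    (ordR y' a < ordR y' b ↔ ordR y'' a < ordR y'' b) ∨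
      (ordI y' a < ordI y' b ↔ ordI y a < ordI y b) := by
  by_cases hab : a = b
  · subst hab; left; simp
  have hd := hy a b hab
  have hc : ∀ (z : Fin N → Plane), (∀ k, dist (y k) (z k) < η / 8) → ∀ k (i : Fin 2),
      |y k i - z k i| < η / 8 := by
    intro z hz k i
    have h1 := coord_le (y k - z k) i
    rw [← dist_eq_norm] at h1
    have h2 : (y k - z k) i = y k i - z k i := rfl
    rw [h2] at h1
    exact lt_of_le_of_lt h1 (hz k)
  have h1 := norm_le_coords (y a - y b)
  rw [← dist_eq_norm] at h1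
  have e0 : (y a - y b) 0 = y a 0 - y b 0 := rfl
  have e1 : (y a - y b) 1 = y a 1 - y b 1 := rfl
  rw [e0, e1] at h1
  have hfar : ∀ (i : Fin 2), η / 2 ≤ |y a i - y b i| → ∀ (z : Fin N → Plane),
      (∀ k, dist (y k) (z k) < η / 8) → (z a i ≠ z b i ∧ (z a i < z b i ↔ y a i < y b i)) := by
    intro i hi z hz
    have ha := abs_lt.1 (hc z hz a i)
    have hb := abs_lt.1 (hc z hz b i)
    rcases le_abs.1 hi with h3 | h3
    · refine ⟨by intro h; linarith [ha.1, ha.2, hb.1, hb.2], ?_⟩
      constructor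
      · intro h; linarith [ha.1, ha.2, hb.1, hb.2]
      · intro h; linarith [ha.1, ha.2, hb.1, hb.2]
    · refine ⟨by intro h; linarith [ha.1, ha.2, hb.1, hb.2], ?_⟩
      constructor
      · intro h; linarith [ha.1, ha.2, hb.1, hb.2]
      · intro h; linarith [ha.1, ha.2, hb.1, hb.2]
  have hself : ∀ k, dist (y k) (y k) < η / 8 := by
    intro k; rw [dist_self]; positivity
  by_cases hbig : η / 2 ≤ |y a 0 - y b 0|
  · left
    obtain ⟨n1, i1⟩ := hfar 0 hbig y' h'
    obtain ⟨n2, i2⟩ := hfar 0 hbig y'' h''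
    unfold ordR
    rw [ordOf_lt (keyR_inj (hy'.inj hη)), ordOf_lt (keyR_inj (hy''.inj hη)),
      toLex_lt_iff_of_ne n1, toLex_lt_iff_of_ne n2, i1, i2]
  · right
    have hbig' : η / 2 ≤ |y a 1 - y b 1| := by
      push Not at hbig
      linarith
    obtain ⟨n1, i1⟩ := hfar 1 hbig' y' h'
    obtain ⟨n2, _⟩ := hfar 1 hbig' y hself
    unfold ordI
    rw [ordOf_lt (keyI_inj (hy'.inj hη)), ordOf_lt (keyI_inj (hy.inj hη)),
      toLex_lt_iff_of_ne n1, toLex_lt_iff_of_ne n2, i1]

end orders

section transport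

variable {R : Type*} [CommRing R] {N : ℕ}

theorem Psi_add (t : R) (r I : Equiv.Perm (Fin N)) (c c' : Fin N → R) :
    Psi t r I (c + c') = Psi t r I c + Psi t r I c' := by
  funext l
  exact Wj_add t r _ c c' (r l) (c l) (c' l)

theorem Psi_smul (t : R) (r I : Equiv.Perm (Fin N)) (a : R) (c : Fin N → R) :
    Psi t r I (a • c) = a • Psi t r I c := by
  funext l
  exact Wj_smul t r _ a c (r l) (c l)

/-- `Psi` as a linear equivalence. -/
noncomputable def PsiE (t : Rˣ) (r I : Equiv.Perm (Fin N)) :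
    (Fin N → R) ≃ₗ[R] (Fin N → R) :=
  LinearEquiv.ofBijective
    { toFun := Psi (t : R) r I
      map_add' := Psi_add (t : R) r I
      map_smul' := Psi_smul (t : R) r I } (Psi_bijective t r I)

theorem PsiE_apply (t : Rˣ) (r I : Equiv.Perm (Fin N)) (c : Fin N → R) :
    PsiE t r I c = Psi (t : R) r I c := rfl

/-- Transport between configurations. -/
noncomputable def Tr (t : Rˣ) (y y' : Fin N → Plane) : (Fin N → R) ≃ₗ[R] (Fin N → R) :=
  (PsiE t (ordR y) (ordI y)).trans (PsiE t (ordR y') (ordI y)).symm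

theorem Tr_spec (t : Rˣ) (y y' : Fin N → Plane) (c : Fin N → R) :
    Psi (t : R) (ordR y') (ordI y) (Tr t y y' c) = Psi (t : R) (ordR y) (ordI y) c := by
  have h : PsiE t (ordR y') (ordI y) (Tr t y y' c) = PsiE t (ordR y) (ordI y) c := by
    simp [Tr]
  exact h

theorem Tr_unique (t : Rˣ) (y y' : Fin N → Plane) (c c' : Fin N → R)
    (h : Psi (t : R) (ordR y') (ordI y) c' = Psi (t : R) (ordR y) (ordI y) c) :
    Tr t y y' c = c' := by
  apply (Psi_bijective t (ordR y') (ordI y)).1
  rw [Tr_spec, h]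

theorem Tr_cocycle (t : Rˣ) {η : ℝ} (hη : 0 < η) {y y' y'' : Fin N → Plane} (hy : Sep η y)
    (hy' : Sep η y') (hy'' : Sep η y'')
    (h' : ∀ k, dist (y k) (y' k) < η / 8) (h'' : ∀ k, dist (y k) (y'' k) < η / 8) :
    Tr t y' y'' * Tr t y y' = Tr (R := R) t y y'' := by
  apply LinearEquiv.ext
  intro c
  rw [LinearEquiv.mul_apply]
  symm
  apply Tr_unique
  rw [← Tr_spec t y y' c]
  symm
  apply Psi_indep t (ordR y') (ordR y'') (ordI y) _ _ (ordI y')
  · exact orders_agree hη hy hy' hy'' h' h''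
  · exact (Tr_spec t y' y'' _).symm

theorem Psi_equiv (t : R) (r I s : Equiv.Perm (Fin N)) (c : Fin N → R) :
    Psi t (s.trans r) (s.trans I) (fun u => c (s u)) = fun l => Psi t r I c (s l) := by
  funext l
  unfold Psi
  exact Wj_equiv t r s (fun u => I (s l) < I u) (fun u => (s.trans I) l < (s.trans I) u)
    (fun u => Iff.rfl) c _ _

/-- Relabelling. -/
def Pl (R : Type*) [CommRing R] (s : Equiv.Perm (Fin N)) : (Fin N → R) ≃ₗ[R] (Fin N → R) where
  toFun c := fun k => c (s k)
  invFun c := fun k => c (s.symm k)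
  left_inv c := by funext k; simp
  right_inv c := by funext k; simp
  map_add' _ _ := rfl
  map_smul' _ _ := rfl

theorem Pl_apply (s : Equiv.Perm (Fin N)) (c : Fin N → R) (k : Fin N) :
    Pl R s c k = c (s k) := rfl

theorem Pl_inv_apply (s : Equiv.Perm (Fin N)) (c : Fin N → R) (k : Fin N) :
    (Pl R s)⁻¹ c k = c (s.symm k) := rfl

theorem Tr_equiv (t : Rˣ) {y y' : Fin N → Plane} (hy : Function.Injective y)
    (hy' : Function.Injective y') (s : Equiv.Perm (Fin N)) :
    Tr t (fun k => y (s k)) (fun k => y' (s k)) = Pl R s * Tr t y y' * (Pl R s)⁻¹ := by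
  apply LinearEquiv.ext
  intro c
  rw [LinearEquiv.mul_apply, LinearEquiv.mul_apply]
  apply Tr_unique
  rw [ordR_comp hy, ordI_comp hy, ordR_comp hy']
  set c₀ := (Pl R s)⁻¹ c with hc₀
  have h1 : c = fun u => c₀ (s u) := by
    funext u
    rw [hc₀, Pl_inv_apply]; simp
  have h2 : Pl R s (Tr t y y' c₀) = fun u => (Tr t y y' c₀) (s u) := rfl
  rw [h2, Psi_equiv, h1, Psi_equiv, Tr_spec]

theorem Psi_one (t : R) (r I : Equiv.Perm (Fin N)) : Psi t r I (fun _ => 1) = fun _ => 1 := by
  funext l
  exact Wj_one t r _ (r l)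

theorem Tr_one (t : Rˣ) (y y' : Fin N → Plane) :
    Tr t y y' (fun _ => (1 : R)) = fun _ => 1 := by
  apply Tr_unique
  rw [Psi_one, Psi_one]

theorem Tr_mod (t : Rˣ) (y y' : Fin N → Plane) (c : Fin N → R) (k : Fin N) :
    ((t : R) - 1) ∣ Tr t y y' c k - c k := by
  have h1 := Wj_mod (t : R) (ordR y') (fun u => ordI y k < ordI y u) (Tr t y y' c)
    (ordR y' k) (Tr t y y' c k)
  have h2 := Wj_mod (t : R) (ordR y) (fun u => ordI y k < ordI y u) c (ordR y k) (c k)
  have h3 := congrFun (Tr_spec t y y' c) k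
  unfold Psi at h3
  rw [h3] at h1
  have := dvd_sub h2 h1
  rwa [sub_sub_sub_cancel_left] at this

theorem Tr_Lam (t : Rˣ) (y y' : Fin N → Plane) (c : Fin N → R) :
    Lam (t : R) (ordR y') (Tr t y y' c) = Lam (t : R) (ordR y) c := by
  rw [← Lam_Psi (t : R) (ordR y') (ordI y), Tr_spec, Lam_Psi]

theorem Lam_comp (t : R) (r s : Equiv.Perm (Fin N)) (c : Fin N → R) :
    Lam t (s.trans r) c = Lam t r ((Pl R s)⁻¹ c) := by
  unfold Lam
  rw [← Equiv.sum_comp s (fun l => t ^ (r l : ℕ) * (Pl R s)⁻¹ c l)]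
  apply Finset.sum_congr rfl
  intro l _
  rw [Pl_inv_apply]
  simp

end transport

end Pool.Agent.MPbd
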