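import Mathlib
import Pool.Agent.Lib.MP_bd1dbb_gt.Transport

set_option autoImplicit false
set_option linter.unusedSectionVars false

/-!
There is no torsion over a `q`-cycle in the reduced Burau type group modulo `q`.
-/

namespace Pool.Agent.MPbd

open Function Finset PowerSeries

variable {q : ℕ} [hq : Fact q.Prime]

instance : NeZero q := ⟨hq.out.ne_zero⟩

/-- The unit `1 + X`. -/
noncomputable def tt (q : ℕ) [Fact q.Prime] : (PowerSeries (ZMod q))ˣ :=
  IsUnit.unit (a := (1 + X : PowerSeries (ZMod q))) (by
    rw [PowerSeries.isUnit_iff_constantCoeff]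
    simp)

theorem tt_val : ((tt q : (PowerSeries (ZMod q))ˣ) : PowerSeries (ZMod q)) = 1 + X := rfl

theorem natCast_q : ((q : ℕ) : PowerSeries (ZMod q)) = 0 := by
  have : ((q : ℕ) : PowerSeries (ZMod q)) = PowerSeries.C ((q : ℕ) : ZMod q) :=
    (map_natCast (PowerSeries.C : ZMod q →+* PowerSeries (ZMod q)) q).symm
  rw [this, CharP.cast_eq_zero, map_zero]

theorem X_mul_Lam_one (r : Equiv.Perm (Fin q)) :
    (X : PowerSeries (ZMod q)) * Lam ((tt q : (PowerSeries (ZMod q))ˣ) : PowerSeries (ZMod q)) r
      (fun _ => 1) = X ^ q := by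
  unfold Lam
  have h1 : ∑ l, ((tt q : (PowerSeries (ZMod q))ˣ) : PowerSeries (ZMod q)) ^ (r l : ℕ) * 1 =
      ∑ j ∈ range q, (1 + X : PowerSeries (ZMod q)) ^ j := by
    rw [Finset.sum_range]
    rw [← Equiv.sum_comp r (fun j : Fin q => (1 + X : PowerSeries (ZMod q)) ^ (j : ℕ))]
    apply Finset.sum_congr rfl
    intro l _
    rw [mul_one, tt_val]
  rw [h1]
  have h2 := mul_geom_sum (1 + X : PowerSeries (ZMod q)) q
  have h3 : (1 + X : PowerSeries (ZMod q)) - 1 = X := by ring
  rw [h3] at h2
  rw [h2]
  have : CharP (PowerSeries (ZMod q)) q :=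
    charP_of_injective_ringHom (f := (PowerSeries.C : ZMod q →+* PowerSeries (ZMod q)))
      PowerSeries.C_injective q
  rw [add_pow_char, one_pow]
  ring

theorem no_torsion (B : (Fin q → PowerSeries (ZMod q)) ≃ₗ[PowerSeries (ZMod q)]
      (Fin q → PowerSeries (ZMod q))) (hB : B ^ q = 1) (r : Equiv.Perm (Fin q))
    (hL : ∀ c, Lam ((tt q : (PowerSeries (ZMod q))ˣ) : PowerSeries (ZMod q)) r (B c) =
      Lam ((tt q : (PowerSeries (ZMod q))ˣ) : PowerSeries (ZMod q)) r c)
    (hone : B (fun _ => 1) = fun _ => 1)
    (hmod : ∀ c k, (X : PowerSeries (ZMod q)) ∣ B c k - c (k - 1)) : False := by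
  set L : (Fin q → PowerSeries (ZMod q)) → PowerSeries (ZMod q) :=
    Lam ((tt q : (PowerSeries (ZMod q))ˣ) : PowerSeries (ZMod q)) r with hLdef
  have hLadd : ∀ c c', L (c + c') = L c + L c' := by
    intro c c'
    rw [hLdef]; unfold Lam
    rw [← Finset.sum_add_distrib]
    apply Finset.sum_congr rfl
    intro l _
    rw [Pi.add_apply]; ring
  have hLsmul : ∀ (a : PowerSeries (ZMod q)) c, L (a • c) = a * L c := by
    intro a c
    rw [hLdef]; unfold Lam
    rw [Finset.mul_sum]
    apply Finset.sum_congr rfl
    intro l _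
    rw [Pi.smul_apply, smul_eq_mul]; ring
  have hLzero : L 0 = 0 := by
    have := hLsmul 0 0
    simpa using this
  have hLsum : ∀ (s : Finset ℕ) (F : ℕ → (Fin q → PowerSeries (ZMod q))),
      L (∑ j ∈ s, F j) = ∑ j ∈ s, L (F j) := by
    intro s F
    classical
    induction s using Finset.induction_on with
    | empty => simp [hLzero]
    | insert a s ha ih => rw [Finset.sum_insert ha, Finset.sum_insert ha, hLadd, ih]
  -- the vector `s`
  set v₀ : Fin q → PowerSeries (ZMod q) := Pi.single 0 1 with hv₀
  set s : Fin q → PowerSeries (ZMod q) := ∑ j ∈ range q, (B ^ j) v₀ with hs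
  have hBs : B s = s := by
    rw [hs, map_sum]
    have h1 : ∀ j, B ((B ^ j) v₀) = (B ^ (j + 1)) v₀ := by
      intro j
      rw [pow_succ']; rfl
    rw [Finset.sum_congr rfl (fun j _ => h1 j)]
    have h2 := Finset.sum_range_succ' (fun j => (B ^ j) v₀) q
    have h3 := Finset.sum_range_succ (fun j => (B ^ j) v₀) q
    rw [h2, hB, pow_zero] at h3
    exact add_right_cancel h3
  have hmodj : ∀ j, ∀ c k, (X : PowerSeries (ZMod q)) ∣ (B ^ j) c k - c (k - (Fin.ofNat q j)) := by
    intro j
    induction j with
    | zero =>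
      intro c k
      have : k - Fin.ofNat q 0 = k := by simp
      rw [this, pow_zero]; simp
    | succ j ih =>
      intro c k
      have h1 : (B ^ (j + 1)) c = B ((B ^ j) c) := by rw [pow_succ']; rfl
      rw [h1]
      have h2 := hmod ((B ^ j) c) k
      have h3 := ih c (k - 1)
      have h4 : k - 1 - Fin.ofNat q j = k - Fin.ofNat q (j + 1) := by
        have : Fin.ofNat q (j + 1) = Fin.ofNat q j + 1 := by
          apply Fin.ext
          simp [Fin.val_add, Fin.ofNat]
        rw [this]
        abel
      rw [h4] at h3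
      have := dvd_add h2 h3
      rwa [sub_add_sub_cancel] at this
  have hsmod : ∀ k, (X : PowerSeries (ZMod q)) ∣ s k - 1 := by
    intro k
    have h1 : s k = ∑ j ∈ range q, ((B ^ j) v₀) k := by
      rw [hs, Finset.sum_apply]
    have h2 : ∑ j ∈ range q, v₀ (k - Fin.ofNat q j) = 1 := by
      rw [Finset.sum_range]
      have : ∀ j : Fin q, v₀ (k - Fin.ofNat q (j : ℕ)) = v₀ (k - j) := by
        intro j
        congr 2
        simp
      rw [Finset.sum_congr rfl (fun j _ => this j)]
      rw [Finset.sum_eq_single k]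
      · rw [sub_self, hv₀, Pi.single_eq_same]
      · intro j _ hj
        rw [hv₀, Pi.single_eq_of_ne]
        intro h
        exact hj (sub_eq_zero.1 h).symm
      · intro h; exact absurd (Finset.mem_univ k) h
    rw [h1, ← h2, ← Finset.sum_sub_distrib]
    apply Finset.dvd_sum
    intro j _
    exact hmodj j v₀ k
  have hLs : L s = 0 := by
    rw [hs, hLsum]
    have : ∀ j, L ((B ^ j) v₀) = L v₀ := by
      intro j
      induction j with
      | zero => rfl
      | succ j ih =>
        have h1 : (B ^ (j + 1)) v₀ = B ((B ^ j) v₀) := by rw [pow_succ']; rfl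
        rw [h1, hL, ih]
    rw [Finset.sum_congr rfl (fun j _ => this j), Finset.sum_const, Finset.card_range,
      nsmul_eq_mul, natCast_q, zero_mul]
  -- the main descent
  have key : ∀ m : ℕ, ∃ (a : PowerSeries (ZMod q)) (v : Fin q → PowerSeries (ZMod q)),
      B v = v ∧ (fun _ => (1 : PowerSeries (ZMod q))) = a • s + (X : PowerSeries (ZMod q)) ^ m • v := by
    intro m
    induction m with
    | zero =>
      refine ⟨0, fun _ => 1, hone, ?_⟩
      simp
    | succ m ih =>
      obtain ⟨a, v, hv, hav⟩ := ih
      -- `v` is constant modulo `X`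
      have h1 : ∀ k, constantCoeff (v k) = constantCoeff (v (k - 1)) := by
        intro k
        have h2 := hmod v k
        rw [hv, PowerSeries.X_dvd_iff, map_sub, sub_eq_zero] at h2
        exact h2
      have h2 : ∀ (j : ℕ) k, constantCoeff (v k) = constantCoeff (v (k - Fin.ofNat q j)) := by
        intro j
        induction j with
        | zero =>
          intro k
          have : k - Fin.ofNat q 0 = k := by simp
          rw [this]
        | succ j ihj =>
          intro k
          have h4 : k - 1 - Fin.ofNat q j = k - Fin.ofNat q (j + 1) := by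
            have : Fin.ofNat q (j + 1) = Fin.ofNat q j + 1 := by
              apply Fin.ext
              simp [Fin.val_add, Fin.ofNat]
            rw [this]
            abel
          rw [h1 k, ihj (k - 1), h4]
      have h3 : ∀ k, constantCoeff (v k) = constantCoeff (v 0) := by
        intro k
        have := h2 (k : ℕ) k
        rw [this]
        congr 2
        simp
      set β : PowerSeries (ZMod q) := PowerSeries.C (constantCoeff (v 0)) with hβ
      have h4 : ∀ k, (X : PowerSeries (ZMod q)) ∣ v k - β * s k := by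
        intro k
        rw [PowerSeries.X_dvd_iff, map_sub, map_mul, h3 k]
        have h5 := hsmod k
        rw [PowerSeries.X_dvd_iff, map_sub, map_one, sub_eq_zero] at h5
        rw [h5, hβ, PowerSeries.constantCoeff_C, mul_one, sub_self]
      choose v' hv' using h4
      have h6 : v = β • s + (X : PowerSeries (ZMod q)) • v' := by
        funext k
        rw [Pi.add_apply, Pi.smul_apply, Pi.smul_apply, smul_eq_mul, smul_eq_mul, ← hv']
        ring
      have h7 : B v' = v' := by
        have h8 : (X : PowerSeries (ZMod q)) • B v' = (X : PowerSeries (ZMod q)) • v' := by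
          have h9 : (X : PowerSeries (ZMod q)) • v' = v - β • s := by
            rw [h6]; simp
          rw [← map_smul, h9, map_sub, map_smul, hBs, hv]
        funext k
        have h10 := congrFun h8 k
        rw [Pi.smul_apply, Pi.smul_apply, smul_eq_mul, smul_eq_mul] at h10
        exact mul_left_cancel₀ PowerSeries.X_ne_zero h10
      refine ⟨a + X ^ m * β, v', h7, ?_⟩
      rw [hav, h6, pow_succ]
      simp only [smul_add, smul_smul, add_smul]
      rw [add_assoc]
  obtain ⟨a, v, hv, hav⟩ := key q
  have h1 : L (fun _ => 1) = X ^ q * L v := by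
    rw [hav, hLadd, hLsmul, hLsmul, hLs, mul_zero, zero_add]
  have h2 := X_mul_Lam_one (q := q) r
  rw [← hLdef, h1] at h2
  have h3 : (X : PowerSeries (ZMod q)) * L v = 1 := by
    have h4 : (X : PowerSeries (ZMod q)) ^ q * (X * L v) = X ^ q * 1 := by
      calc (X : PowerSeries (ZMod q)) ^ q * (X * L v) = X * (X ^ q * L v) := by ring
        _ = X ^ q := h2
        _ = X ^ q * 1 := (mul_one _).symm
    exact mul_left_cancel₀ (pow_ne_zero _ PowerSeries.X_ne_zero) h4
  have h5 := congrArg constantCoeff h3
  rw [map_mul, PowerSeries.constantCoeff_X, zero_mul, map_one] at h5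
  exact zero_ne_one h5

end Pool.Agent.MPbd
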