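import Mathlib

set_option autoImplicit false

/-!
Elementary number theory: the idempotent decomposition of `1` in `ℤ/n`.
-/

namespace Pool.Agent.MPbd

open Finset

theorem exists_idem (n : ℕ) (hn : 0 < n) : ∃ u : ℕ → ℕ,
    (∀ r ∈ n.primeFactors, n ∣ u r * r ^ (n.factorization r)) ∧
    (∀ S ⊆ n.primeFactors, ∀ r, r.Prime → r ∣ n →
      (r ∣ ∑ i ∈ S, u i) ∨ (∑ i ∈ S, u i ≡ 1 [MOD r])) ∧
    (∑ i ∈ n.primeFactors, u i ≡ 1 [MOD n]) := by
  classical
  have hcop : ∀ r, r.Prime → Nat.Coprime (r ^ (n.factorization r)) (n / r ^ (n.factorization r)) :=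
    fun r hr => (Nat.coprime_ordCompl hr hn.ne').pow_left _
  have hex : ∀ r : ℕ, ∃ u : ℕ, r.Prime → (u ≡ 1 [MOD r ^ (n.factorization r)] ∧
      (n / r ^ (n.factorization r)) ∣ u) := by
    intro r
    by_cases hr : r.Prime
    · obtain ⟨k, hk1, hk2⟩ := Nat.chineseRemainder (hcop r hr) 1 0
      exact ⟨k, fun _ => ⟨hk1, (Nat.modEq_zero_iff_dvd).1 hk2⟩⟩
    · exact ⟨0, fun h => absurd h hr⟩
  choose u hu using hex
  have hdvd : ∀ r ∈ n.primeFactors, ∀ r', r'.Prime → r' ≠ r →
      r' ^ (n.factorization r') ∣ u r := by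
    intro r hr r' hr' hne
    have hrp : r.Prime := Nat.prime_of_mem_primeFactors hr
    have h1 : r' ^ (n.factorization r') ∣ r ^ (n.factorization r) * (n / r ^ (n.factorization r)) := by
      rw [Nat.ordProj_mul_ordCompl_eq_self]
      exact Nat.ordProj_dvd n r'
    have h2 : Nat.Coprime (r' ^ (n.factorization r')) (r ^ (n.factorization r)) :=
      Nat.Coprime.pow _ _ ((Nat.coprime_primes hr' hrp).2 hne)
    exact (h2.dvd_of_dvd_mul_left h1).trans (hu r hrp).2
  have hsum : ∀ S ⊆ n.primeFactors, ∀ r, r.Prime →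
      ((r ∉ S → r ^ (n.factorization r) ∣ ∑ i ∈ S, u i) ∧
      (r ∈ S → ∑ i ∈ S, u i ≡ 1 [MOD r ^ (n.factorization r)])) := by
    intro S hS r hr
    have h0 : ∀ S' ⊆ n.primeFactors, r ∉ S' → r ^ (n.factorization r) ∣ ∑ i ∈ S', u i := by
      intro S' hS' hrS'
      apply Finset.dvd_sum
      intro i hi
      apply hdvd i (hS' hi) r hr
      rintro rfl; exact hrS' hi
    refine ⟨h0 S hS, ?_⟩
    intro hrS
    rw [← Finset.add_sum_erase S u hrS]
    have h1 := h0 (S.erase r) ((Finset.erase_subset _ _).trans hS) (Finset.notMem_erase r S)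
    have h2 := (hu r hr).1
    have h3 : ∑ i ∈ S.erase r, u i ≡ 0 [MOD r ^ (n.factorization r)] :=
      (Nat.modEq_zero_iff_dvd).2 h1
    simpa using h2.add h3
  refine ⟨u, ?_, ?_, ?_⟩
  · intro r hr
    have hrp : r.Prime := Nat.prime_of_mem_primeFactors hr
    obtain ⟨k, hk⟩ := (hu r hrp).2
    refine ⟨k, ?_⟩
    have h1 := Nat.ordProj_mul_ordCompl_eq_self n r
    rw [hk]
    calc n / r ^ n.factorization r * k * r ^ n.factorization r =
        (r ^ n.factorization r * (n / r ^ n.factorization r)) * k := by ring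
      _ = n * k := by rw [h1]
  · intro S hS r hr hrn
    have hpos : 1 ≤ n.factorization r := (hr.dvd_iff_one_le_factorization hn.ne').1 hrn
    have hrd : r ∣ r ^ (n.factorization r) := dvd_pow_self r (by omega)
    by_cases hrS : r ∈ S
    · right
      exact ((hsum S hS r hr).2 hrS).of_dvd hrd
    · left
      exact hrd.trans ((hsum S hS r hr).1 hrS)
  · have hmem : ∀ r, r.Prime → r ∣ n →
        ∑ i ∈ n.primeFactors, u i ≡ 1 [MOD r ^ (n.factorization r)] := by
      intro r hr hrn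
      exact (hsum _ (Finset.Subset.refl _) r hr).2 (Nat.mem_primeFactors.2 ⟨hr, hrn, hn.ne'⟩)
    rw [Nat.modEq_iff_dvd, Int.natCast_dvd]
    rw [Nat.dvd_iff_prime_pow_dvd_dvd]
    intro r k hr hrk
    rcases Nat.eq_zero_or_pos k with h0 | h0
    · rw [h0, pow_zero]; exact one_dvd _
    · have hrn : r ∣ n := (dvd_pow_self r (by omega)).trans hrk
      have h1 := (Nat.modEq_iff_dvd.1 (hmem r hr hrn))
      rw [Int.natCast_dvd] at h1
      refine Dvd.dvd.trans ?_ h1
      exact pow_dvd_pow r ((hr.pow_dvd_iff_le_factorization hn.ne').1 hrk)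

end Pool.Agent.MPbd
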