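import Mathlib
import Pool.Agent.Lib.MP_bd1dbb_gt.LinAlg
import Pool.Agent.Lib.MP_bd1dbb_gt.NumT

set_option autoImplicit false
set_option linter.unusedSectionVars false

/-!
Periodic maps of disk-like continua have fixed points.
-/

namespace Pool.Agent.MPbd

open Function Finset

/-- Acyclicity in degree zero: properties propagating along small steps propagate everywhere. -/
theorem Acyc.chain {K : Type*} [CommRing K] [Nontrivial K] {Z : Type*} [MetricSpace Z]
    (hA : Acyc K Z) {δ : ℝ} (hδ : 0 < δ) (P : Z → Prop)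
    (hP : ∀ x y, dist x y < δ → P x → P y) (x y : Z) (hx : P x) : P y := by
  classical
  set f : List Z → K := fun w => if ∃ z ∈ w, P z then 1 else 0 with hf
  have hf1 : ∀ z, P z → f [z] = 1 := by
    intro z hz
    rw [hf]; beta_reduce
    rw [if_pos ⟨z, by simp, hz⟩]
  have hf2 : ∀ z, ¬ P z → f [z] = 0 := by
    intro z hz
    rw [hf]; beta_reduce
    rw [if_neg]
    rintro ⟨z', hz', hPz'⟩
    rw [List.mem_singleton] at hz'
    rw [hz'] at hPz'; exact hz hPz'
  obtain ⟨δ', hδ', g, hg⟩ := hA 1 δ hδ f (by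
    intro w hw hwn
    obtain ⟨a, b, rfl⟩ := List.length_eq_two.1 hwn
    have h1 : d f [a, b] = f [b] - f [a] := by
      rw [d_cons, d_cons]
      simp
    rw [h1]
    have hab : dist a b < δ := hw a (by simp) b (by simp)
    have hba : dist b a < δ := hw b (by simp) a (by simp)
    by_cases ha : P a
    · rw [hf1 a ha, hf1 b (hP a b hab ha), sub_self]
    · have hb : ¬ P b := fun hb => ha (hP b a hba hb)
      rw [hf2 a ha, hf2 b hb, sub_self])
  have h1 : ∀ z, f [z] = g [] := by
    intro z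
    rw [hg [z] (by
      intro a ha b hb
      rw [List.mem_singleton] at ha hb
      rw [ha, hb]
      unfold Ds
      rw [dist_self]; exact hδ') rfl, d_cons]
    simp
  by_contra hy
  have h2 := h1 x
  rw [← h1 y, hf1 x hx, hf2 y hy] at h2
  exact one_ne_zero h2

theorem finset_min {ι : Type*} (S : Finset ι) (Q : ι → ℝ → Prop)
    (hanti : ∀ i a b, a ≤ b → Q i b → Q i a) (H : ∀ i ∈ S, ∃ ρ > 0, Q i ρ) :
    ∃ ρ > 0, ∀ i ∈ S, Q i ρ := by
  classical
  induction S using Finset.induction_on with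
  | empty => exact ⟨1, one_pos, by simp⟩
  | insert a S ha ih =>
    obtain ⟨ρ₁, hρ₁, H₁⟩ := ih (fun i hi => H i (Finset.mem_insert_of_mem hi))
    obtain ⟨ρ₂, hρ₂, H₂⟩ := H a (Finset.mem_insert_self a S)
    refine ⟨min ρ₁ ρ₂, lt_min hρ₁ hρ₂, ?_⟩
    intro i hi
    rcases Finset.mem_insert.1 hi with rfl | hi
    · exact hanti _ _ _ (min_le_right _ _) H₂
    · exact hanti _ _ _ (min_le_left _ _) (H₁ i hi)

theorem pos_dist {X Y : Type*} [MetricSpace X] [CompactSpace X] [MetricSpace Y] {f g : X → Y}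
    (hf : Continuous f) (hg : Continuous g) (hne : ∀ x, f x ≠ g x) :
    ∃ ρ > 0, ∀ x, ρ ≤ dist (f x) (g x) := by
  rcases isEmpty_or_nonempty X with hX | hX
  · exact ⟨1, one_pos, fun x => (hX.false x).elim⟩
  · obtain ⟨x₀, -, hmin⟩ := (isCompact_univ (X := X)).exists_isMinOn Set.univ_nonempty
      (f := fun x => dist (f x) (g x)) (hf.dist hg).continuousOn
    exact ⟨dist (f x₀) (g x₀), dist_pos.2 (hne x₀), fun x => hmin (Set.mem_univ x)⟩

/-- The configuration attached to a point and an exponent. -/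
noncomputable def Phi {X : Type} (α : X → Plane) (h : X → X) {q : ℕ} (e : ℕ) (x : X) :
    Fin q → Plane :=
  fun k => α (if (k : ℕ) = 0 then h^[e] x else h^[(k : ℕ)] x)

/-- Admissible exponents. -/
def Adm (n q e : ℕ) : Prop := ∀ j, 1 ≤ j → j < q → Nat.Coprime (e + (n - j)) n

theorem adm_of {n q e : ℕ} (hn : 1 < n) (hq : q = n.minFac)
    (H : ∀ r, r.Prime → r ∣ n → (r ∣ e ∨ e ≡ q [MOD r])) : Adm n q e := by
  intro j hj1 hjq
  apply Nat.coprime_of_dvd
  intro r hr hrd hrn
  have hqr : q ≤ r := by rw [hq]; exact Nat.minFac_le_of_dvd hr.two_le hrn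
  have hqn : q ≤ n := by rw [hq]; exact Nat.minFac_le (by omega)
  have h1 : (r : ℤ) ∣ (e : ℤ) - j := by
    have h2 : (r : ℤ) ∣ ((e + (n - j) : ℕ) : ℤ) := Int.natCast_dvd_natCast.2 hrd
    have h3 : (r : ℤ) ∣ (n : ℤ) := Int.natCast_dvd_natCast.2 hrn
    have h4 := dvd_sub h2 h3
    have h5 : ((e + (n - j) : ℕ) : ℤ) - n = e - j := by
      rw [Nat.cast_add, Nat.cast_sub (by omega)]; ring
    rwa [h5] at h4
  rcases H r hr hrn with h | h
  · have h2 : (r : ℤ) ∣ (e : ℤ) := Int.natCast_dvd_natCast.2 h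
    have h3 : (r : ℤ) ∣ (j : ℤ) := by
      have := dvd_sub h2 h1
      rwa [sub_sub_cancel] at this
    have h4 := Nat.le_of_dvd (by omega) (Int.natCast_dvd_natCast.1 h3)
    omega
  · have h2 : (r : ℤ) ∣ (q : ℤ) - e := (Nat.modEq_iff_dvd).1 h
    have h3 : (r : ℤ) ∣ (q : ℤ) - j := by
      have := dvd_add h2 h1
      rwa [sub_add_sub_cancel] at this
    have h4 := Int.le_of_dvd (by omega) h3
    omega

section step

variable {X : Type} [MetricSpace X] [CompactSpace X]

theorem main_step (H : DiskLike X) {n q : ℕ} [hqp : Fact q.Prime] (hn : 1 < n)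
    (hq : q = n.minFac) {h : X → X} (hc : Continuous h) (hper : ∀ x, h^[n] x = x)
    (hno : ∀ x, h x ≠ x) (xs : X) (hxs : h^[q] xs = xs) : False := by
  classical
  have hqn : q ≤ n := by rw [hq]; exact Nat.minFac_le (by omega)
  have hq2 : 2 ≤ q := hqp.out.two_le
  have hmod : ∀ a x, h^[a % n] x = h^[a] x := fun a x =>
    IsPeriodicPt.iterate_mod_apply (hper x) a
  have hcop : ∀ a, Nat.Coprime a n → ∀ x, h^[a] x ≠ x := by
    intro a ha x hx
    have h1 : IsPeriodicPt h (a.gcd n) x := IsPeriodicPt.gcd hx (hper x)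
    rw [Nat.Coprime] at ha
    rw [ha] at h1
    exact hno x h1
  -- separation
  obtain ⟨ρ, hρ, Hρ⟩ := finset_min (range n ×ˢ range n)
    (fun i ρ => (∀ x, h^[i.1] x ≠ h^[i.2] x) → ∀ x, ρ ≤ dist (h^[i.1] x) (h^[i.2] x))
    (fun i a b hab hQ hne x => hab.trans (hQ hne x))
    (by
      intro i _
      by_cases hne : ∀ x, h^[i.1] x ≠ h^[i.2] x
      · obtain ⟨ρ, hρ, Hρ⟩ := pos_dist (hc.iterate i.1) (hc.iterate i.2) hne
        exact ⟨ρ, hρ, fun _ => Hρ⟩
      · exact ⟨1, one_pos, fun hh => absurd hh hne⟩)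
  have Hρ' : ∀ a b, (∀ x, h^[a] x ≠ h^[b] x) → ∀ x, ρ ≤ dist (h^[a] x) (h^[b] x) := by
    intro a b hab x
    have h1 := Hρ (a % n, b % n) (by
      rw [Finset.mem_product, Finset.mem_range, Finset.mem_range]
      exact ⟨Nat.mod_lt _ (by omega), Nat.mod_lt _ (by omega)⟩)
    simp only [hmod] at h1
    exact h1 hab x
  obtain ⟨η, hη, α, σ, hα, -, -, Hη⟩ := H.approx hρ
  have hsep : ∀ a b, (∀ x, h^[a] x ≠ h^[b] x) → ∀ x, η ≤ dist (α (h^[a] x)) (α (h^[b] x)) := by
    intro a b hab x
    by_contra hcon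
    push Not at hcon
    have h1 := Hη _ _ hcon
    have h2 := Hρ' a b hab x
    linarith
  obtain ⟨δ₀, hδ₀, Hδ₀⟩ := finset_min (range n)
    (fun i ρ => ∀ x x', dist x x' < ρ → dist (α (h^[i] x)) (α (h^[i] x')) < η / 8)
    (fun i a b hab hQ x x' hxx => hQ x x' (lt_of_lt_of_le hxx hab))
    (by
      intro i _
      have huc : UniformContinuous (fun x => α (h^[i] x)) :=
        hα.comp (CompactSpace.uniformContinuous_of_continuous (hc.iterate i))
      obtain ⟨δ, hδ, Hδ⟩ := Metric.uniformContinuous_iff.1 huc (η / 8) (by positivity)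
      exact ⟨δ, hδ, fun x x' hxx => Hδ hxx⟩)
  have Hδ₀' : ∀ a x x', dist x x' < δ₀ → dist (α (h^[a] x)) (α (h^[a] x')) < η / 8 := by
    intro a x x' hxx
    have := Hδ₀ (a % n) (Finset.mem_range.2 (Nat.mod_lt _ (by omega))) x x' hxx
    simpa only [hmod] using this
  -- disjointness of iterates
  have hdis1 : ∀ e, Adm n q e → ∀ j, 1 ≤ j → j < q → ∀ x, h^[e] x ≠ h^[j] x := by
    intro e he j hj1 hjq x hx
    apply hcop _ (he j hj1 hjq) x
    rw [add_comm, iterate_add_apply, hx, ← iterate_add_apply, Nat.sub_add_cancel (by omega), hper]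
  have hdis2 : ∀ k l, 1 ≤ k → k < l → l < q → ∀ x, h^[k] x ≠ h^[l] x := by
    intro k l hk1 hkl hlq x hx
    have hc1 : Nat.Coprime (l - k) n := by
      apply Nat.coprime_of_dvd
      intro r hr hrd hrn
      have hqr : q ≤ r := by rw [hq]; exact Nat.minFac_le_of_dvd hr.two_le hrn
      have := Nat.le_of_dvd (by omega) hrd
      omega
    apply hcop _ hc1 x
    have h1 : h^[n - k] (h^[k] x) = x := by
      rw [← iterate_add_apply, Nat.sub_add_cancel (by omega), hper]
    have h2 : h^[n - k] (h^[l] x) = h^[l - k] x := by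
      rw [← iterate_add_apply, ← hmod]
      have : (n - k + l) % n = (l - k) % n := by
        have : n - k + l = (l - k) + n := by omega
        rw [this, Nat.add_mod_right]
      rw [this, hmod]
    rw [← h2, ← hx, h1]
  have hPsep : ∀ e, Adm n q e → ∀ x, Sep η (Phi (q := q) α h e x) := by
    intro e he x k l hkl
    unfold Phi
    by_cases hk : (k : ℕ) = 0
    · have hl : (l : ℕ) ≠ 0 := fun hl => hkl (Fin.ext (hk.trans hl.symm))
      rw [if_pos hk, if_neg hl]
      exact hsep e l (hdis1 e he l (by omega) l.2) x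
    · by_cases hl : (l : ℕ) = 0
      · rw [if_pos hl, if_neg hk, dist_comm]
        exact hsep e k (hdis1 e he k (by omega) k.2) x
      · rw [if_neg hl, if_neg hk]
        rcases lt_or_gt_of_ne (fun hh => hkl (Fin.ext hh) : (k : ℕ) ≠ l) with hlt | hlt
        · exact hsep k l (hdis2 k l (by omega) hlt l.2) x
        · rw [dist_comm]
          exact hsep l k (hdis2 l k (by omega) hlt k.2) x
  have hPclose : ∀ e x x', dist x x' < δ₀ →
      ∀ k, dist (Phi (q := q) α h e x k) (Phi (q := q) α h e x' k) < η / 8 := by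
    intro e x x' hxx k
    unfold Phi
    by_cases hk : (k : ℕ) = 0
    · rw [if_pos hk, if_pos hk]; exact Hδ₀' e x x' hxx
    · rw [if_neg hk, if_neg hk]; exact Hδ₀' k x x' hxx
  -- the transports
  have hYex : ∀ e, Adm n q e → ∃ (Y : X → ((Fin q → PowerSeries (ZMod q)) ≃ₗ[PowerSeries (ZMod q)]
      (Fin q → PowerSeries (ZMod q)))) (δ : ℝ), 0 < δ ∧
      (∀ x x', dist x x' < δ → Y x' = Tr (tt q) (Phi α h e x) (Phi α h e x') * Y x) ∧
      Y xs = 1 := by
    intro e he
    obtain ⟨Y, δ, hδ, HY⟩ := H.ladder (fun x x' => Tr (R := PowerSeries (ZMod q)) (tt q)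
      (Phi (q := q) α h e x) (Phi α h e x')) hδ₀ (by
        intro x x' x'' h1 _ h3
        exact Tr_cocycle (tt q) hη (hPsep e he x) (hPsep e he x') (hPsep e he x'')
          (hPclose e x x' h1) (hPclose e x x'' h3))
    refine ⟨fun x => Y x * (Y xs)⁻¹, δ, hδ, ?_, ?_⟩
    · intro x x' hxx
      beta_reduce
      rw [HY x x' hxx, mul_assoc]
    · exact mul_inv_cancel _
  choose Y δ hδ HY HYs using hYex
  have hXchain := fun {δ : ℝ} (hδ : 0 < δ) (P : X → Prop) => (H.acyc (ZMod q)).chain hδ P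
  -- equality along a fixed point set
  have hstep : ∀ e (he : Adm n q e) κ (he' : Adm n q (e + κ)) (r a : ℕ), r.Prime →
      (∀ x, (h^[κ])^[r ^ a] x = x) → q ∣ κ → ∀ x, h^[q] x = x → Y (e + κ) he' x = Y e he x := by
    intro e he κ he' r a hr hκ hqκ x hx
    have : Fact r.Prime := ⟨hr⟩
    have hA := smith_pow a hκ (hc.iterate κ) (H.acyc (ZMod r))
    have hfixq : ∀ z, h^[q] z = z → h^[κ] z = z := by
      intro z hz
      obtain ⟨m, rfl⟩ := hqκ
      rw [iterate_mul]
      exact iterate_fixed hz m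
    have hPhi : ∀ z, h^[κ] z = z → Phi (q := q) α h (e + κ) z = Phi α h e z := by
      intro z hz
      unfold Phi
      rw [iterate_add_apply, hz]
    have := hA.chain (lt_min (hδ e he) (hδ (e + κ) he'))
      (fun z => Y (e + κ) he' z.1 = Y e he z.1) (by
        intro z z' hzz hz
        have h1 := HY e he z.1 z'.1 (lt_of_lt_of_le hzz (min_le_left _ _))
        have h2 := HY (e + κ) he' z.1 z'.1 (lt_of_lt_of_le hzz (min_le_right _ _))
        rw [hPhi z.1 z.2, hPhi z'.1 z'.2] at h2
        rw [h1, h2, hz]) ⟨xs, hfixq xs hxs⟩ ⟨x, hfixq x hx⟩ (by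
        show Y (e + κ) he' xs = Y e he xs
        rw [HYs, HYs])
    exact this
  -- exponents
  obtain ⟨u, hu1, hu2, hu3⟩ := exists_idem n (by omega)
  have hAdmS : ∀ S ⊆ n.primeFactors, Adm n q (q * ∑ i ∈ S, u i) := by
    intro S hS
    apply adm_of hn hq
    intro r hr hrn
    rcases hu2 S hS r hr hrn with h1 | h1
    · left; exact h1.mul_left q
    · right
      have := h1.mul_left q
      rwa [mul_one] at this
  have hAdm0 : Adm n q 0 := by
    have := hAdmS ∅ (Finset.empty_subset _)
    simpa using this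
  have hYS : ∀ (S : Finset ℕ) (hS : S ⊆ n.primeFactors), ∀ (hA : Adm n q (q * ∑ i ∈ S, u i)),
      ∀ x, h^[q] x = x → Y (q * ∑ i ∈ S, u i) hA x = Y 0 hAdm0 x := by
    intro S
    induction S using Finset.induction_on with
    | empty =>
      intro _ hA x _
      have h0 : q * ∑ i ∈ (∅ : Finset ℕ), u i = 0 := by simp
      have : ∀ e (he : Adm n q e), e = 0 → Y e he x = Y 0 hAdm0 x := by
        rintro e he rfl; rfl
      exact this _ hA h0
    | insert r S hrS ih =>
      intro hS hA x hx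
      have hS' : S ⊆ n.primeFactors := (Finset.subset_insert _ _).trans hS
      have hr : r ∈ n.primeFactors := hS (Finset.mem_insert_self _ _)
      have h0 : q * ∑ i ∈ insert r S, u i = q * ∑ i ∈ S, u i + q * u r := by
        rw [Finset.sum_insert hrS]; ring
      have hA' : Adm n q (q * ∑ i ∈ S, u i + q * u r) := by rw [← h0]; exact hA
      have h1 : Y (q * ∑ i ∈ insert r S, u i) hA x =
          Y (q * ∑ i ∈ S, u i + q * u r) hA' x := by
        have : ∀ e (he : Adm n q e), e = q * ∑ i ∈ S, u i + q * u r →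
            Y e he x = Y (q * ∑ i ∈ S, u i + q * u r) hA' x := by
          rintro e he rfl; rfl
        exact this _ hA h0
      rw [h1, ← ih hS' (hAdmS S hS') x hx]
      apply hstep _ (hAdmS S hS') (q * u r) hA' r (n.factorization r)
        (Nat.prime_of_mem_primeFactors hr)
      · intro z
        rw [← iterate_mul]
        obtain ⟨k, hk⟩ := hu1 r hr
        have : q * u r * r ^ n.factorization r = n * (k * q) := by
          calc q * u r * r ^ n.factorization r = (u r * r ^ n.factorization r) * q := by ring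
            _ = n * (k * q) := by rw [hk]; ring
        rw [this, iterate_mul]
        exact iterate_fixed (hper z) _
      · exact Dvd.intro _ rfl
      · exact hx
  set E := q * ∑ i ∈ n.primeFactors, u i with hE
  have hAdmE : Adm n q E := hAdmS _ (Finset.Subset.refl _)
  have hYE : ∀ x, h^[q] x = x → Y E hAdmE x = Y 0 hAdm0 x :=
    fun x hx => hYS _ (Finset.Subset.refl _) hAdmE x hx
  have hhE : ∀ x, h^[E] x = h^[q] x := by
    intro x
    have h1 : E % n = q % n := by
      have := hu3.mul_left q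
      rw [mul_one] at this
      exact this
    rw [← hmod E, h1, hmod]
  -- the cyclic relabelling
  set c : Equiv.Perm (Fin q) := Equiv.addRight 1 with hcdef
  have hPhic : ∀ x, Phi (q := q) α h 0 (h x) = fun k => Phi α h E x (c k) := by
    intro x
    funext k
    unfold Phi
    have hck : c k = k + 1 := rfl
    rw [hck]
    have hLHS : (if (k : ℕ) = 0 then h^[0] (h x) else h^[(k : ℕ)] (h x)) = h^[(k : ℕ) + 1] x := by
      by_cases hk : (k : ℕ) = 0
      · rw [if_pos hk, hk]; rfl
      · rw [if_neg hk, iterate_succ_apply]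
    rw [hLHS]
    congr 1
    rcases Nat.lt_or_ge ((k : ℕ) + 1) q with hlt | hge
    · have hv : ((k + 1 : Fin q) : ℕ) = (k : ℕ) + 1 := by
        rw [Fin.val_add, Fin.val_one', Nat.mod_eq_of_lt (show 1 < q by omega),
          Nat.mod_eq_of_lt hlt]
      rw [hv, if_neg (by omega)]
    · have hk : (k : ℕ) + 1 = q := by have := k.2; omega
      have hv : ((k + 1 : Fin q) : ℕ) = 0 := by
        rw [Fin.val_add, Fin.val_one', Nat.mod_eq_of_lt (show 1 < q by omega), hk, Nat.mod_self]
      rw [if_pos hv, hk, hhE]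
  -- constancy of `B`
  have huch : UniformContinuous h := CompactSpace.uniformContinuous_of_continuous hc
  obtain ⟨δh, hδh, Hδh⟩ := Metric.uniformContinuous_iff.1 huch (δ 0 hAdm0) (hδ 0 hAdm0)
  set Pc := Pl (PowerSeries (ZMod q)) c with hPc
  set B := (Pc)⁻¹ * Y 0 hAdm0 (h xs) with hB
  have hBconst : ∀ x, (Y E hAdmE x)⁻¹ * (Pc)⁻¹ * Y 0 hAdm0 (h x) = B := by
    intro x
    apply hXchain (lt_min hδh (hδ E hAdmE))
      (fun x => (Y E hAdmE x)⁻¹ * (Pc)⁻¹ * Y 0 hAdm0 (h x) = B) _ xs x
    · rw [HYs, inv_one, one_mul]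
    · intro x x' hxx hx
      have h1 := HY 0 hAdm0 (h x) (h x') (Hδh (lt_of_lt_of_le hxx (min_le_left _ _)))
      have h2 := HY E hAdmE x x' (lt_of_lt_of_le hxx (min_le_right _ _))
      rw [hPhic, hPhic, Tr_equiv (tt q) ((hPsep E hAdmE x).inj hη) ((hPsep E hAdmE x').inj hη),
        ← hPc] at h1
      rw [h1, h2, ← hx]
      group
  have hYh : ∀ x, h^[q] x = x → Y 0 hAdm0 (h x) = Pc * Y 0 hAdm0 x * B := by
    intro x hx
    rw [← hBconst x, hYE x hx]
    group
  have hBq : B ^ q = 1 := by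
    have h1 : ∀ j, Y 0 hAdm0 (h^[j] xs) = Pc ^ j * B ^ j := by
      intro j
      induction j with
      | zero => rw [pow_zero, pow_zero, one_mul]; exact HYs 0 hAdm0
      | succ j ih =>
        rw [iterate_succ_apply', hYh, ih, pow_succ', pow_succ]
        · simp only [mul_assoc]
        · rw [← iterate_add_apply, add_comm, iterate_add_apply, hxs]
    have h2 := h1 q
    rw [hxs, HYs] at h2
    have h3 : Pc ^ q = 1 := by
      apply LinearEquiv.ext
      intro v
      funext k
      have h4 : ∀ j, (Pc ^ j) v k = v (k + Fin.ofNat q j) := by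
        intro j
        induction j generalizing k with
        | zero => simp
        | succ j ih =>
          have h5 : (Pc ^ (j + 1)) v k = (Pc ^ j) v (k + 1) := by
            rw [pow_succ']; rfl
          rw [h5, ih]
          congr 1
          have : Fin.ofNat q (j + 1) = Fin.ofNat q j + 1 := by
            apply Fin.ext
            simp [Fin.val_add, Fin.ofNat]
          rw [this]
          abel
      rw [h4]
      have h6 : Fin.ofNat q q = 0 := by
        apply Fin.ext
        simp [Fin.ofNat]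
      rw [h6, add_zero]; rfl
    rw [h3, one_mul] at h2
    exact h2.symm
  -- properties of `Y 0`
  have hYprop : ∀ x, (Y 0 hAdm0 x (fun _ => 1) = fun _ => 1) ∧
      (∀ v k, (PowerSeries.X : PowerSeries (ZMod q)) ∣ Y 0 hAdm0 x v k - v k) ∧
      (∀ v, Lam ((tt q : (PowerSeries (ZMod q))ˣ) : PowerSeries (ZMod q))
          (ordR (Phi (q := q) α h 0 x)) (Y 0 hAdm0 x v) =
        Lam ((tt q : (PowerSeries (ZMod q))ˣ) : PowerSeries (ZMod q))
          (ordR (Phi (q := q) α h 0 xs)) v) := by
    intro x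
    apply hXchain (hδ 0 hAdm0) (fun x => (Y 0 hAdm0 x (fun _ => 1) = fun _ => 1) ∧
      (∀ v k, (PowerSeries.X : PowerSeries (ZMod q)) ∣ Y 0 hAdm0 x v k - v k) ∧
      (∀ v, Lam ((tt q : (PowerSeries (ZMod q))ˣ) : PowerSeries (ZMod q))
          (ordR (Phi (q := q) α h 0 x)) (Y 0 hAdm0 x v) =
        Lam ((tt q : (PowerSeries (ZMod q))ˣ) : PowerSeries (ZMod q))
          (ordR (Phi (q := q) α h 0 xs)) v)) _ xs x
    · rw [HYs]
      refine ⟨rfl, ?_, fun v => rfl⟩
      intro v k
      simp
    · intro x x' hxx hx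
      obtain ⟨p1, p2, p3⟩ := hx
      have h1 := HY 0 hAdm0 x x' hxx
      rw [h1]
      refine ⟨?_, ?_, ?_⟩
      · rw [LinearEquiv.mul_apply, p1, Tr_one]
      · intro v k
        rw [LinearEquiv.mul_apply]
        have h2 := Tr_mod (tt q) (Phi (q := q) α h 0 x) (Phi α h 0 x') (Y 0 hAdm0 x v) k
        have h3 : (((tt q : (PowerSeries (ZMod q))ˣ) : PowerSeries (ZMod q)) - 1) =
            PowerSeries.X := by
          rw [tt_val]; ring
        rw [h3] at h2
        have := dvd_add h2 (p2 v k)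
        rwa [sub_add_sub_cancel] at this
      · intro v
        rw [LinearEquiv.mul_apply, Tr_Lam, p3]
  obtain ⟨p1, p2, p3⟩ := hYprop (h xs)
  apply no_torsion B hBq (ordR (Phi (q := q) α h 0 xs))
  · intro v
    rw [hB, LinearEquiv.mul_apply, ← Lam_comp]
    have h1 : c.trans (ordR (Phi (q := q) α h 0 xs)) = ordR (Phi (q := q) α h 0 (h xs)) := by
      have h2 : Phi (q := q) α h 0 xs = Phi α h E xs := by
        unfold Phi
        rw [hhE, hxs]; rfl
      rw [hPhic, h2, ordR_comp ((hPsep E hAdmE xs).inj hη)]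
    rw [h1]
    exact p3 v
  · rw [hB, LinearEquiv.mul_apply, p1]
    rfl
  · intro v k
    rw [hB, LinearEquiv.mul_apply, hPc, Pl_inv_apply]
    have : c.symm k = k - 1 := by
      rw [hcdef, Equiv.addRight_symm]
      simp [sub_eq_add_neg]
    rw [this]
    exact p2 v (k - 1)

theorem main (H : DiskLike X) : ∀ n : ℕ, 0 < n → ∀ h : X → X, Continuous h →
    (∀ x, h^[n] x = x) → ∃ x, h x = x := by
  intro n
  induction n using Nat.strong_induction_on with
  | _ n ih =>
    intro hn h hc hper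
    rcases Nat.lt_or_ge 1 n with h1 | h1
    · by_contra hcon
      push Not at hcon
      have hq : n.minFac.Prime := Nat.minFac_prime (by omega)
      obtain ⟨m, hm⟩ := Nat.minFac_dvd n
      have hm0 : 0 < m := by
        rcases Nat.eq_zero_or_pos m with h0 | h0
        · rw [h0, mul_zero] at hm; omega
        · exact h0
      have hmn : m < n := by
        have := hq.two_le
        nlinarith
      obtain ⟨xs, hxs⟩ := ih m hmn hm0 (h^[n.minFac]) (hc.iterate _) (by
        intro x
        rw [← iterate_mul, ← hm]; exact hper x)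
      have : Fact n.minFac.Prime := ⟨hq⟩
      exact main_step H h1 rfl hc hper hcon xs hxs
    · have hn1 : n = 1 := by omega
      subst hn1
      obtain ⟨f, _, hrange, _⟩ := H 1 one_pos
      have : (0 : Plane) ∈ Set.range f := by rw [hrange]; simp
      obtain ⟨x, _⟩ := this
      exact ⟨x, by simpa using hper x⟩

end step

end Pool.Agent.MPbd
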